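import Mathlib

/-!
# A conflict structure of large girth without soft strongly maximal independent set
-/

open Finset
open scoped Classical

namespace Pool.Agent.H165R2.SM

/-- every set `S` has a profitable finite exchange away from the finite exceptional set `X0` -/
def Unst {X : Type} (A : X → X → Prop) : Prop :=
  ∀ (S : Set X) (X0 : Finset X), ∃ (D B : Finset X) (R : Finset (X × X)),
    B ⊆ D ∧
    (∀ r ∈ R, A r.1 r.2 ∧ r.1 ∈ S ∧ r.2 ∈ S ∧ (r.1 ∈ D ∨ r.2 ∈ D) ∧ r.1 ∉ X0 ∧ r.2 ∉ X0) ∧
    (∀ x ∈ B, ∀ y ∈ B, ¬ A x y) ∧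
    (∀ x ∈ B, ∀ y ∈ S, y ∉ D → ¬ A x y ∧ ¬ A y x) ∧
    (D.filter (· ∈ S)).card < B.card + R.card

/-- few edges form a forest: every edge is a bridge -/
def Acyc {X : Type} (A : X → X → Prop) (n : ℕ) : Prop :=
  ∀ Q : Finset (X × X), (∀ r ∈ Q, A r.1 r.2) → Q.card ≤ n → ∀ r ∈ Q,
    ∃ P : Set X, r.1 ∈ P ∧ r.2 ∉ P ∧ ∀ s ∈ Q, s ≠ r → (s.1 ∈ P ↔ s.2 ∈ P)

theorem Acyc.irrefl {X : Type} {A : X → X → Prop} {n : ℕ} (h : Acyc A n) (hn : 1 ≤ n) (x : X) :
    ¬ A x x := by
  intro hx
  obtain ⟨P, h1, h2, -⟩ := h {(x, x)} (by simpa using hx) (by simpa using hn) (x, x) (by simp)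
  exact h2 h1

theorem Acyc.asymm {X : Type} {A : X → X → Prop} {n : ℕ} (h : Acyc A n) (hn : 2 ≤ n) (x y : X) :
    A x y → ¬ A y x := by
  intro hx hy
  have hne : x ≠ y := by
    rintro rfl
    exact h.irrefl (by omega) x hx
  obtain ⟨P, h1, h2, h3⟩ := h {(x, y), (y, x)} (by
    intro r hr
    simp only [mem_insert, mem_singleton] at hr
    rcases hr with rfl | rfl
    · exact hx
    · exact hy) (le_trans (card_insert_le _ _) (by simpa using hn)) (x, y) (by simp)
  have := h3 (y, x) (by simp) (by
    intro e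
    exact hne (Prod.mk.inj e).2)
  exact h2 (this.2 h1)

/-- the chain lemma -/
theorem chain_ineq (s : ℕ → Prop) (k : ℕ) :
    (∑ i ∈ range (2 * k), if s (i + 1) then 1 else 0) + (if s 0 ∧ s (2 * k + 1) then 1 else 0) ≤
      k + ∑ i ∈ range (2 * k + 1), if s i ∧ s (i + 1) then 1 else 0 := by
  induction k with
  | zero =>
    simp only [Nat.mul_zero, range_zero, sum_empty, Nat.zero_add, range_one, sum_singleton]
    exact le_rfl
  | succ k ih =>
    have e1 : 2 * (k + 1) = 2 * k + 1 + 1 := by ring
    rw [e1, sum_range_succ, sum_range_succ, sum_range_succ _ (2 * k + 1 + 1),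
      sum_range_succ _ (2 * k + 1)]
    by_cases h0 : s 0 <;> by_cases h1 : s (2 * k + 1) <;> by_cases h2 : s (2 * k + 1 + 1) <;>
      by_cases h3 : s (2 * k + 1 + 1 + 1) <;> simp_all <;> omega

/-- `κ = (c, j, t, w)` -/
abbrev Kx := ZMod 3 × ℕ × ℕ × ℕ

inductive Cx : Type
  | leaf (c : ZMod 3) (j t : ℕ)
  | cen (c : ZMod 3) (j w : ℕ)
  | chn (κ : Kx) (i : ℕ)

open Cx

/-- `a j = 3 (2 ^ j - 1)` -/
def aa : ℕ → ℕ
  | 0 => 0
  | j + 1 => 2 * aa j + 3

def WW (j : ℕ) : ℕ := aa j + 2

theorem aa_succ (j : ℕ) : aa (j + 1) = 2 * aa j + 3 := rfl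

theorem aa_lt (j : ℕ) : aa j < aa (j + 1) := by
  rw [aa_succ]; omega

theorem aa_mono : StrictMono aa := strictMono_nat_of_lt_succ aa_lt

/-- the position `i` of the chain `κ`, `0 ≤ i ≤ 2 * k + 1` -/
def pt (k : ℕ) (κ : Kx) (i : ℕ) : Cx :=
  if i = 0 then leaf κ.1 κ.2.1 κ.2.2.1 else
    if i = 2 * k + 1 then cen κ.1 κ.2.1 κ.2.2.2 else chn κ i

theorem pt_zero (k : ℕ) (κ : Kx) : pt k κ 0 = leaf κ.1 κ.2.1 κ.2.2.1 := rfl

theorem pt_last (k : ℕ) (κ : Kx) : pt k κ (2 * k + 1) = cen κ.1 κ.2.1 κ.2.2.2 := by
  simp [pt]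

theorem pt_mid (k : ℕ) (κ : Kx) (i : ℕ) (h1 : 1 ≤ i) (h2 : i ≤ 2 * k) : pt k κ i = chn κ i := by
  have h3 : i ≠ 0 := by omega
  have h4 : i ≠ 2 * k + 1 := by omega
  simp [pt, h3, h4]

def okK (κ : Kx) : Prop := κ.2.2.1 < aa (κ.2.1 + 1) ∧ κ.2.2.2 < WW κ.2.1

/-- the oriented edges -/
def Ar (k : ℕ) (x y : Cx) : Prop :=
  (∃ (κ : Kx) (i : ℕ), okK κ ∧ i ≤ 2 * k ∧ x = pt k κ i ∧ y = pt k κ (i + 1)) ∨
  (∃ (c : ZMod 3) (i j t : ℕ), aa i ≤ t ∧ t < aa (i + 1) ∧ i < j ∧ x = leaf (c + 1) i t ∧
    y = leaf c j t)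

theorem pt_inj_mid (k : ℕ) {κ κ' : Kx} {i i' : ℕ} (h : pt k κ i = pt k κ' i') (h1 : 1 ≤ i)
    (h2 : i ≤ 2 * k) : κ = κ' ∧ i = i' := by
  rw [pt_mid k κ i h1 h2] at h
  unfold pt at h
  split_ifs at h with h3 h4
  exact ⟨(Cx.chn.inj h).1, (Cx.chn.inj h).2⟩

theorem pt_ne_leaf (k : ℕ) {κ : Kx} {i : ℕ} {c j t} (h : pt k κ i = leaf c j t) :
    i = 0 ∧ κ.1 = c ∧ κ.2.1 = j ∧ κ.2.2.1 = t := by
  unfold pt at h
  split_ifs at h with h3 h4
  exact ⟨h3, Cx.leaf.inj h⟩

theorem pt_ne_cen (k : ℕ) {κ : Kx} {i : ℕ} {c j t} (h : pt k κ i = cen c j t) :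
    i = 2 * k + 1 ∧ κ.1 = c ∧ κ.2.1 = j ∧ κ.2.2.2 = t := by
  unfold pt at h
  split_ifs at h with h3 h4
  exact ⟨h4, Cx.cen.inj h⟩

theorem fan_uniq {i i' t : ℕ} (h1 : aa i ≤ t) (h2 : t < aa (i + 1)) (h1' : aa i' ≤ t)
    (h2' : t < aa (i' + 1)) : i = i' := by
  by_contra hne
  rcases lt_or_gt_of_ne hne with hlt | hgt
  · have := aa_mono.monotone (show i + 1 ≤ i' by omega)
    omega
  · have := aa_mono.monotone (show i' + 1 ≤ i by omega)
    omega

theorem acyc (k : ℕ) (hk : 1 ≤ k) : Acyc (Ar k) (2 * k) := by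
  intro Q hQ hc
  -- a missing edge in every chain
  have hm : ∀ κ : Kx, ∃ m, m ≤ 2 * k ∧ (pt k κ m, pt k κ (m + 1)) ∉ Q := by
    intro κ
    by_contra hcon
    push Not at hcon
    have h1 : ((range (2 * k + 1)).image fun m => (pt k κ m, pt k κ (m + 1))) ⊆ Q := by
      intro r hr
      simp only [mem_image, mem_range] at hr
      obtain ⟨m, hm, rfl⟩ := hr
      exact hcon m (by omega)
    have h2 := card_le_card h1
    rw [card_image_of_injOn, card_range] at h2
    · omega
    · intro i hi i' hi' e
      simp only [coe_range, Set.mem_Iio] at hi hi'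
      have e1 := (Prod.mk.inj e).1
      have e2 := (Prod.mk.inj e).2
      rcases Nat.eq_zero_or_pos i with rfl | hpos
      · have := (pt_inj_mid k e2 (by omega) (by omega)).2
        omega
      · exact (pt_inj_mid k e1 hpos (by omega)).2
  choose m hm1 hm2 using hm
  intro r hr
  have hA := hQ r hr
  obtain ⟨x, y⟩ := r
  simp only [Ar] at hA
  rcases hA with ⟨κ, i, hκ, hi, rfl, rfl⟩ | ⟨c, i, j, t, h1, h2, h, rfl, rfl⟩
  · have hne : i ≠ m κ := by
      rintro rfl
      exact hm2 κ hr
    rcases lt_or_gt_of_ne hne with hlt | hgt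
    · -- the `y` side is the set of positions in `[i + 1, m]`
      refine ⟨fun z => ¬ ∃ l, i + 1 ≤ l ∧ l ≤ m κ ∧ z = pt k κ l, ?_, ?_, ?_⟩
      · rintro ⟨l, h1, h2, e⟩
        try dsimp only at e
        have := hm1 κ
        have := (pt_inj_mid k e.symm (by omega) (by omega)).2
        omega
      · exact not_not_intro ⟨i + 1, le_rfl, hlt, rfl⟩
      · intro s hs hsr
        have hs' := hQ s hs
        obtain ⟨u, v⟩ := s
        refine not_congr ?_
        have hmk := hm1 κ
        simp only [Ar] at hs'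
        rcases hs' with ⟨κ', i', hκ', hi', rfl, rfl⟩ | ⟨c, i', j, t, h1, h2, h, rfl, rfl⟩
        · constructor
          · rintro ⟨l, h1, h2, e⟩
            try dsimp only at e
            obtain ⟨rfl, rfl⟩ := pt_inj_mid k e.symm (by omega) (by omega)
            refine ⟨l + 1, by omega, ?_, rfl⟩
            by_contra hcon
            have : l = m κ := by omega
            subst this
            exact hm2 κ hs
          · rintro ⟨l, h1, h2, e⟩
            try dsimp only at e
            obtain ⟨rfl, h3⟩ := pt_inj_mid k e.symm (by omega) (by omega)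
            subst h3
            refine ⟨i', ?_, by omega, rfl⟩
            by_contra hcon
            have : i' = i := by omega
            subst this
            exact hsr rfl
        · constructor
          · rintro ⟨l, h1, h2, e⟩
            try dsimp only at e
            have := (pt_ne_leaf k e.symm).1
            omega
          · rintro ⟨l, h1, h2, e⟩
            try dsimp only at e
            have := (pt_ne_leaf k e.symm).1
            omega
    · -- the `x` side is the set of positions in `[m + 1, i]`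
      refine ⟨fun z => ∃ l, m κ + 1 ≤ l ∧ l ≤ i ∧ z = pt k κ l, ?_, ?_, ?_⟩
      · exact ⟨i, hgt, le_rfl, rfl⟩
      · rintro ⟨l, h1, h2, e⟩
        try dsimp only at e
        have := (pt_inj_mid k e.symm (by omega) (by omega)).2
        omega
      · intro s hs hsr
        have hs' := hQ s hs
        obtain ⟨u, v⟩ := s
        simp only [Ar] at hs'
        rcases hs' with ⟨κ', i', hκ', hi', rfl, rfl⟩ | ⟨c, i', j, t, h1, h2, h, rfl, rfl⟩
        · constructor
          · rintro ⟨l, h1, h2, e⟩
            try dsimp only at e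
            obtain ⟨rfl, rfl⟩ := pt_inj_mid k e.symm (by omega) (by omega)
            refine ⟨l + 1, by omega, ?_, rfl⟩
            by_contra hcon
            have : l = i := by omega
            subst this
            exact hsr rfl
          · rintro ⟨l, h1, h2, e⟩
            try dsimp only at e
            obtain ⟨rfl, h3⟩ := pt_inj_mid k e.symm (by omega) (by omega)
            subst h3
            refine ⟨i', ?_, by omega, rfl⟩
            by_contra hcon
            have : i' = m κ := by omega
            subst this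
            exact hm2 κ hs
        · constructor
          · rintro ⟨l, h1, h2, e⟩
            try dsimp only at e
            have := (pt_ne_leaf k e.symm).1
            omega
          · rintro ⟨l, h1, h2, e⟩
            try dsimp only at e
            have := (pt_ne_leaf k e.symm).1
            omega
  · -- the `y` side is the clause leaf together with its pendant chain pieces
    have htj : t < aa j := lt_of_lt_of_le h2 (aa_mono.monotone (by omega))
    refine ⟨fun z => ¬ ∃ w l, l ≤ m (c, j, t, w) ∧ z = pt k (c, j, t, w) l, ?_, ?_, ?_⟩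
    · rintro ⟨w, l, h3, e⟩
      try dsimp only at e
      have := (pt_ne_leaf k e.symm).2.2.1
      simp only at this
      omega
    · exact not_not_intro ⟨0, 0, Nat.zero_le _, rfl⟩
    · intro s hs hsr
      have hs' := hQ s hs
      obtain ⟨u, v⟩ := s
      refine not_congr ?_
      simp only [Ar] at hs'
      rcases hs' with ⟨κ', i', hκ', hi', rfl, rfl⟩ | ⟨c', i', j', t', h1', h2', h', rfl, rfl⟩
      · constructor
        · rintro ⟨w, l, h3, e⟩
          try dsimp only at e
          have hmk := hm1 (c, j, t, w)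
          rcases Nat.eq_zero_or_pos i' with rfl | hpos
          · -- `κ'` starts at the leaf
            have h5 : l = 0 := by
              by_contra hl
              have := (pt_inj_mid k e.symm (by omega) (by omega)).2
              exact hl this
            subst h5
            obtain ⟨-, e1, e2, e3⟩ := pt_ne_leaf k (e.trans (pt_zero k _))
            obtain ⟨c', j', t', w'⟩ := κ'
            simp only at e1 e2 e3
            subst e1 e2 e3
            refine ⟨w', 1, ?_, rfl⟩
            by_contra hcon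
            have : m (c', j', t', w') = 0 := by omega
            have h6 := hm2 (c', j', t', w')
            rw [this] at h6
            exact h6 hs
          · obtain ⟨rfl, h5⟩ := pt_inj_mid k e hpos hi'
            subst h5
            refine ⟨w, i' + 1, ?_, rfl⟩
            by_contra hcon
            have : i' = m (c, j, t, w) := by omega
            subst this
            exact hm2 _ hs
        · rintro ⟨w, l, h3, e⟩
          try dsimp only at e
          have hmk := hm1 (c, j, t, w)
          rcases Nat.eq_zero_or_pos l with rfl | hpos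
          · have := (pt_ne_leaf k (e.trans (pt_zero k _))).1
            omega
          · obtain ⟨h5, h6⟩ := pt_inj_mid k e.symm hpos (by omega)
            subst h5
            subst h6
            exact ⟨w, i', by omega, rfl⟩
      · constructor
        · rintro ⟨w, l, h3, e⟩
          try dsimp only at e
          have := (pt_ne_leaf k e.symm)
          simp only at this
          obtain ⟨-, e1, e2, e3⟩ := this
          subst e2 e3
          omega
        · rintro ⟨w, l, h3, e⟩
          try dsimp only at e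
          have := (pt_ne_leaf k e.symm)
          simp only at this
          obtain ⟨-, e1, e2, e3⟩ := this
          subst e1 e2 e3
          exfalso
          have := fan_uniq h1 h2 h1' h2'
          subst this
          exact hsr rfl

end Pool.Agent.H165R2.SM
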