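import Pool.Agent.H165R2.SM1

/-!
# The conflict structure is unstable
-/

open Finset
open scoped Classical

namespace Pool.Agent.H165R2.SM

open Cx

def isChn : Cx → Prop
  | .chn _ _ => True
  | _ => False

noncomputable def InK (k : ℕ) (K : Finset Kx) : Finset Cx :=
  (K ×ˢ range (2 * k)).image (fun q => chn q.1 (q.2 + 1))

noncomputable def half (k o : ℕ) (K : Finset Kx) : Finset Cx :=
  (K ×ˢ range k).image (fun q => chn q.1 (2 * q.2 + 1 + o))

noncomputable def Rc (k : ℕ) (K : Finset Kx) (S : Set Cx) : Finset (Cx × Cx) :=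
  ((K ×ˢ range (2 * k + 1)).filter
    (fun q => pt k q.1 q.2 ∈ S ∧ pt k q.1 (q.2 + 1) ∈ S)).image
    (fun q => (pt k q.1 q.2, pt k q.1 (q.2 + 1)))

theorem card_half (k o : ℕ) (K : Finset Kx) : (half k o K).card = K.card * k := by
  rw [half, card_image_of_injective, card_product, card_range]
  rintro ⟨κ, i⟩ ⟨κ', i'⟩ h
  simp only [Cx.chn.injEq] at h
  obtain ⟨rfl, h⟩ := h
  have : i = i' := by omega
  subst this; rfl

theorem card_InK (k : ℕ) (K : Finset Kx) (S : Set Cx) : ((InK k K).filter (· ∈ S)).card =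
    ∑ κ ∈ K, ∑ i ∈ range (2 * k), if pt k κ (i + 1) ∈ S then 1 else 0 := by
  rw [InK, filter_image, card_image_of_injective, card_filter, sum_product]
  · refine sum_congr rfl fun κ _ => sum_congr rfl fun i hi => ?_
    rw [mem_range] at hi
    rw [pt_mid k κ (i + 1) (by omega) (by omega)]
  · rintro ⟨κ, i⟩ ⟨κ', i'⟩ h
    simp only [Cx.chn.injEq] at h
    obtain ⟨rfl, h⟩ := h
    have : i = i' := by omega
    subst this; rfl

theorem card_Rc (k : ℕ) (hk : 1 ≤ k) (K : Finset Kx) (S : Set Cx) : (Rc k K S).card =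
    ∑ κ ∈ K, ∑ i ∈ range (2 * k + 1), if pt k κ i ∈ S ∧ pt k κ (i + 1) ∈ S then 1 else 0 := by
  rw [Rc, card_image_of_injOn, card_filter, sum_product]
  rintro ⟨κ, i⟩ h ⟨κ', i'⟩ h' e
  simp only [coe_filter, mem_product, mem_range, Set.mem_ofPred_eq] at h h'
  have e1 := (Prod.mk.inj e).1
  have e2 := (Prod.mk.inj e).2
  dsimp only at e1 e2
  rcases Nat.eq_zero_or_pos i with rfl | hpos
  · obtain ⟨rfl, h3⟩ := pt_inj_mid k e2 (by omega) (by omega)
    have : i' = 0 := by omega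
    subst this
    rfl
  · obtain ⟨rfl, rfl⟩ := pt_inj_mid k e1 (by omega) (by omega)
    rfl

theorem count_ineq (k : ℕ) (hk : 1 ≤ k) (K : Finset Kx) (S : Set Cx) :
    ((InK k K).filter (· ∈ S)).card +
      (K.filter (fun κ => pt k κ 0 ∈ S ∧ pt k κ (2 * k + 1) ∈ S)).card ≤
      K.card * k + (Rc k K S).card := by
  rw [card_InK, card_Rc k hk, card_filter, card_eq_sum_ones, sum_mul, ← sum_add_distrib,
    ← sum_add_distrib]
  refine sum_le_sum fun κ _ => ?_
  have := chain_ineq (fun i => pt k κ i ∈ S) k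
  simpa using this

/-- no exchange is profitable -/
def Stab (A : Cx → Cx → Prop) (S : Set Cx) (X0 : Finset Cx) : Prop :=
  ∀ (D B : Finset Cx) (R : Finset (Cx × Cx)), B ⊆ D →
    (∀ r ∈ R, A r.1 r.2 ∧ r.1 ∈ S ∧ r.2 ∈ S ∧ (r.1 ∈ D ∨ r.2 ∈ D) ∧ r.1 ∉ X0 ∧ r.2 ∉ X0) →
    (∀ x ∈ B, ∀ y ∈ B, ¬ A x y) →
    (∀ x ∈ B, ∀ y ∈ S, y ∉ D → ¬ A x y ∧ ¬ A y x) →
    B.card + R.card ≤ (D.filter (· ∈ S)).card

theorem stab_gen (k : ℕ) (hk : 1 ≤ k) {S : Set Cx} {X0 : Finset Cx} (hS : Stab (Ar k) S X0)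
    (o : ℕ) (ho : o ≤ 1) (K : Finset Kx) (Dl Bl : Finset Cx) (Rl : Finset (Cx × Cx))
    (h1 : Bl ⊆ Dl) (h1' : ∀ x ∈ Dl, ¬ isChn x)
    (h2 : ∀ κ ∈ K, okK κ ∧ ∀ i ≤ 2 * k + 1, pt k κ i ∉ X0)
    (h3 : ∀ r ∈ Rl, Ar k r.1 r.2 ∧ r.1 ∈ S ∧ r.2 ∈ S ∧ (r.1 ∈ Dl ∨ r.2 ∈ Dl) ∧ r.1 ∉ X0 ∧
      r.2 ∉ X0)
    (h3' : ∀ r ∈ Rl, ¬ isChn r.1 ∧ ¬ isChn r.2)
    (h4 : ∀ κ ∈ K, o = 0 → (leaf κ.1 κ.2.1 κ.2.2.1 ∈ S → leaf κ.1 κ.2.1 κ.2.2.1 ∈ Dl))
    (h4' : ∀ κ ∈ K, o = 1 → (cen κ.1 κ.2.1 κ.2.2.2 ∈ S → cen κ.1 κ.2.1 κ.2.2.2 ∈ Dl))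
    (h5 : ∀ κ, okK κ → leaf κ.1 κ.2.1 κ.2.2.1 ∈ Bl → κ ∈ K ∧ o = 1)
    (h5' : ∀ κ, okK κ → cen κ.1 κ.2.1 κ.2.2.2 ∈ Bl → κ ∈ K ∧ o = 0)
    (h6 : ∀ (c : ZMod 3) (i j t : ℕ), aa i ≤ t → t < aa (i + 1) → i < j →
      (leaf (c + 1) i t ∈ Bl → leaf c j t ∉ Bl ∧ (leaf c j t ∈ S → leaf c j t ∈ Dl)) ∧
      (leaf c j t ∈ Bl → (leaf (c + 1) i t ∈ S → leaf (c + 1) i t ∈ Dl))) :
    Bl.card + Rl.card + (K.filter (fun κ => pt k κ 0 ∈ S ∧ pt k κ (2 * k + 1) ∈ S)).card ≤
      (Dl.filter (· ∈ S)).card := by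
  have P0 : ∀ κ i, chn κ i ∈ InK k K ↔ κ ∈ K ∧ 1 ≤ i ∧ i ≤ 2 * k := by
    intro κ i
    simp only [InK, mem_image, mem_product, mem_range, Cx.chn.injEq]
    constructor
    · rintro ⟨⟨κ', i'⟩, ⟨h, h'⟩, rfl, rfl⟩
      exact ⟨h, by omega, by simp only at h' ⊢; omega⟩
    · rintro ⟨h, h', h''⟩
      exact ⟨(κ, i - 1), ⟨h, by simp only; omega⟩, rfl, by simp only; omega⟩
  have P0' : ∀ κ i, chn κ i ∈ half k o K → κ ∈ K ∧ 1 ≤ i ∧ i ≤ 2 * k ∧ i % 2 = (1 + o) % 2 := by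
    intro κ i
    simp only [half, mem_image, mem_product, mem_range, Cx.chn.injEq]
    rintro ⟨⟨κ', i'⟩, ⟨h, h'⟩, rfl, rfl⟩
    simp only at h h' ⊢
    exact ⟨h, by omega, by omega, by omega⟩
  have Pleaf : ∀ c j t, leaf c j t ∉ half k o K ∧ leaf c j t ∉ InK k K := by
    intro c j t
    simp [half, InK]
  have Pcen : ∀ c j t, cen c j t ∉ half k o K ∧ cen c j t ∉ InK k K := by
    intro c j t
    simp [half, InK]
  have P1 : ∀ κ i, okK κ → i ≤ 2 * k + 1 → pt k κ i ∈ Bl ∪ half k o K →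
      κ ∈ K ∧ i % 2 = (1 + o) % 2 := by
    intro κ i hκ hi hmem
    rw [mem_union] at hmem
    by_cases e0 : i = 0
    · subst e0
      rw [pt_zero] at hmem
      rcases hmem with hmem | hmem
      · have := h5 κ hκ hmem
        exact ⟨this.1, by omega⟩
      · exact absurd hmem (Pleaf _ _ _).1
    · by_cases e1 : i = 2 * k + 1
      · subst e1
        rw [pt_last] at hmem
        rcases hmem with hmem | hmem
        · have := h5' κ hκ hmem
          exact ⟨this.1, by omega⟩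
        · exact absurd hmem (Pcen _ _ _).1
      · rw [pt_mid k κ i (by omega) (by omega)] at hmem
        rcases hmem with hmem | hmem
        · exact absurd trivial (h1' _ (h1 hmem))
        · have := P0' κ i hmem
          exact ⟨this.1, this.2.2.2⟩
  have P2 : ∀ κ ∈ K, ∀ i ≤ 2 * k + 1, pt k κ i ∈ S → pt k κ i ∉ Dl ∪ InK k K →
      (i = 0 ∧ o = 1) ∨ (i = 2 * k + 1 ∧ o = 0) := by
    intro κ hκ i hi hiS hiD
    rw [mem_union, not_or] at hiD
    by_cases e0 : i = 0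
    · subst e0
      rw [pt_zero] at hiS hiD
      by_cases ho0 : o = 0
      · exact absurd (h4 κ hκ ho0 hiS) hiD.1
      · left; exact ⟨rfl, by omega⟩
    · by_cases e1 : i = 2 * k + 1
      · subst e1
        rw [pt_last] at hiS hiD
        by_cases ho1 : o = 1
        · exact absurd (h4' κ hκ ho1 hiS) hiD.1
        · right; exact ⟨rfl, by omega⟩
      · rw [pt_mid k κ i (by omega) (by omega)] at hiD
        exact absurd ((P0 κ i).2 ⟨hκ, by omega, by omega⟩) hiD.2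
  have key := hS (Dl ∪ InK k K) (Bl ∪ half k o K) (Rl ∪ Rc k K S) ?_ ?_ ?_ ?_
  · have c1 : (Bl ∪ half k o K).card = Bl.card + K.card * k := by
      rw [card_union_of_disjoint, card_half]
      rw [disjoint_left]
      intro x hx hx'
      have := h1' x (h1 hx)
      cases x with
      | leaf c j t => exact (Pleaf _ _ _).1 hx'
      | cen c j t => exact (Pcen _ _ _).1 hx'
      | chn κ i => exact this trivial
    have c2 : (Rl ∪ Rc k K S).card = Rl.card + (Rc k K S).card := by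
      rw [card_union_of_disjoint]
      rw [disjoint_left]
      intro r hr hr'
      have := h3' r hr
      simp only [Rc, mem_image, mem_filter, mem_product, mem_range] at hr'
      obtain ⟨⟨κ, i⟩, ⟨⟨hκ, hi⟩, -⟩, rfl⟩ := hr'
      simp only at hκ hi
      rcases Nat.eq_zero_or_pos i with rfl | hpos
      · have := this.2
        dsimp only at this
        rw [pt_mid k κ _ (by omega) (by omega)] at this
        exact this trivial
      · have := this.1
        dsimp only at this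
        rw [pt_mid k κ _ (by omega) (by omega)] at this
        exact this trivial
    have c3 : ((Dl ∪ InK k K).filter (· ∈ S)).card ≤
        (Dl.filter (· ∈ S)).card + ((InK k K).filter (· ∈ S)).card := by
      rw [filter_union]
      exact card_union_le _ _
    have c4 := count_ineq k hk K S
    omega
  · apply union_subset_union h1
    intro x hx
    simp only [half, mem_image, mem_product, mem_range] at hx
    obtain ⟨⟨κ, i⟩, ⟨h, h'⟩, rfl⟩ := hx
    simp only at h h' ⊢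
    exact (P0 _ _).2 ⟨h, by omega, by omega⟩
  · intro r hr
    rw [mem_union] at hr
    rcases hr with hr | hr
    · obtain ⟨g1, g2, g3, g4, g5⟩ := h3 r hr
      refine ⟨g1, g2, g3, ?_, g5⟩
      rcases g4 with g | g
      · exact .inl (mem_union_left _ g)
      · exact .inr (mem_union_left _ g)
    · simp only [Rc, mem_image, mem_filter, mem_product, mem_range] at hr
      obtain ⟨⟨κ, i⟩, ⟨⟨hκ, hi⟩, hs1, hs2⟩, rfl⟩ := hr
      simp only at hκ hi hs1 hs2
      refine ⟨.inl ⟨κ, i, (h2 κ hκ).1, by omega, rfl, rfl⟩, hs1, hs2, ?_,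
        (h2 κ hκ).2 i (by omega), (h2 κ hκ).2 (i + 1) (by omega)⟩
      rcases Nat.eq_zero_or_pos i with rfl | hpos
      · right
        dsimp only
        rw [pt_mid k κ _ (by omega) (by omega)]
        exact mem_union_right _ ((P0 _ _).2 ⟨hκ, by omega, by omega⟩)
      · left
        dsimp only
        rw [pt_mid k κ _ (by omega) (by omega)]
        exact mem_union_right _ ((P0 _ _).2 ⟨hκ, by omega, by omega⟩)
  · intro x hx y hy hxy
    rcases hxy with ⟨κ, i, hκ, hi, rfl, rfl⟩ | ⟨c, i, j, t, g1, g2, g3, rfl, rfl⟩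
    · have := (P1 κ i hκ (by omega) hx).2
      have := (P1 κ (i + 1) hκ (by omega) hy).2
      omega
    · rw [mem_union] at hx hy
      rcases hx with hx | hx
      · rcases hy with hy | hy
        · exact ((h6 c i j t g1 g2 g3).1 hx).1 hy
        · exact (Pleaf _ _ _).1 hy
      · exact (Pleaf _ _ _).1 hx
  · intro x hx y hyS hyD
    constructor
    · rintro (⟨κ, i, hκ, hi, rfl, rfl⟩ | ⟨c, i, j, t, g1, g2, g3, rfl, rfl⟩)
      · obtain ⟨g1, g2⟩ := P1 κ i hκ (by omega) hx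
        have := P2 κ g1 (i + 1) (by omega) hyS hyD
        omega
      · rw [mem_union] at hx
        rw [mem_union, not_or] at hyD
        rcases hx with hx | hx
        · exact hyD.1 (((h6 c i j t g1 g2 g3).1 hx).2 hyS)
        · exact (Pleaf _ _ _).1 hx
    · rintro (⟨κ, i, hκ, hi, rfl, rfl⟩ | ⟨c, i, j, t, g1, g2, g3, rfl, rfl⟩)
      · obtain ⟨g1, g2⟩ := P1 κ (i + 1) hκ (by omega) hx
        have := P2 κ g1 i (by omega) hyS hyD
        omega
      · rw [mem_union] at hx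
        rw [mem_union, not_or] at hyD
        rcases hx with hx | hx
        · exact hyD.1 ((h6 c i j t g1 g2 g3).2 hx hyS)
        · exact (Pleaf _ _ _).1 hx

end Pool.Agent.H165R2.SM
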