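import Pool.Agent.H165R2.SM2

open Finset
open scoped Classical

namespace Pool.Agent.H165R2.SM

open Cx

def lev : Cx → ℕ
  | .leaf _ j _ => j
  | .cen _ j _ => j
  | .chn κ _ => κ.2.1

theorem lev_pt (k : ℕ) (κ : Kx) (i : ℕ) : lev (pt k κ i) = κ.2.1 := by
  unfold pt
  split_ifs <;> rfl

noncomputable def leavesF (c : ZMod 3) (j : ℕ) : Finset Cx := (range (aa (j + 1))).image (leaf c j)
noncomputable def fansF (c : ZMod 3) (j : ℕ) : Finset Cx :=
  (Ico (aa j) (aa (j + 1))).image (leaf c j)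
noncomputable def censF (c : ZMod 3) (j : ℕ) : Finset Cx := (range (WW j)).image (cen c j)
noncomputable def KK (c : ZMod 3) (j : ℕ) : Finset Kx :=
  ((range (aa (j + 1))) ×ˢ (range (WW j))).image (fun q => (c, j, q.1, q.2))

theorem mem_KK {c : ZMod 3} {j : ℕ} {κ : Kx} : κ ∈ KK c j ↔ okK κ ∧ κ.1 = c ∧ κ.2.1 = j := by
  simp only [KK, mem_image, mem_product, mem_range, okK]
  constructor
  · rintro ⟨⟨t, w⟩, ⟨h1, h2⟩, rfl⟩
    exact ⟨⟨h1, h2⟩, rfl, rfl⟩
  · rintro ⟨⟨h1, h2⟩, rfl, rfl⟩
    exact ⟨(κ.2.2.1, κ.2.2.2), ⟨h1, h2⟩, rfl⟩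

theorem mem_leavesF {c : ZMod 3} {j : ℕ} {x : Cx} :
    x ∈ leavesF c j ↔ ∃ t < aa (j + 1), x = leaf c j t := by
  simp only [leavesF, mem_image, mem_range, eq_comm]

theorem mem_censF {c : ZMod 3} {j : ℕ} {x : Cx} :
    x ∈ censF c j ↔ ∃ t < WW j, x = cen c j t := by
  simp only [censF, mem_image, mem_range, eq_comm]

theorem mem_fansF {c : ZMod 3} {j : ℕ} {x : Cx} :
    x ∈ fansF c j ↔ ∃ t, aa j ≤ t ∧ t < aa (j + 1) ∧ x = leaf c j t := by
  simp only [fansF, mem_image, mem_Ico, eq_comm, and_assoc]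

theorem card_censF (c : ZMod 3) (j : ℕ) : (censF c j).card = WW j := by
  rw [censF, card_image_of_injective, card_range]
  intro a b h
  exact (Cx.cen.inj h).2.2

theorem card_fansF (c : ZMod 3) (j : ℕ) : (fansF c j).card = aa j + 3 := by
  rw [fansF, card_image_of_injective, Nat.card_Ico, aa_succ]
  · omega
  · intro a b h
    exact (Cx.leaf.inj h).2.2

theorem prod_count (c : ZMod 3) (j k : ℕ) (S : Set Cx) :
    ((KK c j).filter (fun κ => pt k κ 0 ∈ S ∧ pt k κ (2 * k + 1) ∈ S)).card =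
      ((leavesF c j).filter (· ∈ S)).card * ((censF c j).filter (· ∈ S)).card := by
  rw [KK, filter_image, card_image_of_injective, leavesF, censF, filter_image, filter_image,
    card_image_of_injective, card_image_of_injective, ← card_product]
  · congr 1
    ext ⟨t, w⟩
    simp only [mem_filter, mem_product, mem_range, pt_zero, pt_last]
    tauto
  · intro a b h
    exact (Cx.cen.inj h).2.2
  · intro a b h
    exact (Cx.leaf.inj h).2.2
  · rintro ⟨t, w⟩ ⟨t', w'⟩ h
    simp only [Prod.mk.injEq, true_and] at h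
    simpa using h

section
variable {k : ℕ} (hk : 1 ≤ k) {S : Set Cx} {X0 : Finset Cx} (hS : Stab (Ar k) S X0) {N : ℕ}
  (hN : ∀ x ∈ X0, lev x < N)
include hk hS hN

theorem fact1 (c : ZMod 3) (j : ℕ) (hj : N ≤ j) (t : ℕ) (ht : t < aa (j + 1))
    (htS : leaf c j t ∈ S) : (∀ w < WW j, cen c j w ∉ S) ∧
      WW j ≤ ((leavesF c j).filter (· ∈ S)).card := by
  have key := stab_gen k hk hS 0 (by omega) (KK c j) (leavesF c j ∪ censF c j) (censF c j) ∅
    subset_union_right
    (by
      intro x hx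
      rw [mem_union, mem_leavesF, mem_censF] at hx
      rcases hx with ⟨t, _, rfl⟩ | ⟨t, _, rfl⟩ <;> exact id)
    (by
      intro κ hκ
      rw [mem_KK] at hκ
      refine ⟨hκ.1, fun i _ hi => ?_⟩
      have := hN _ hi
      rw [lev_pt] at this
      omega)
    (by simp) (by simp)
    (by
      intro κ hκ _ _
      rw [mem_KK] at hκ
      obtain ⟨h1, rfl, rfl⟩ := hκ
      exact mem_union_left _ (mem_leavesF.2 ⟨_, h1.1, rfl⟩))
    (by intro κ hκ h; omega)
    (by
      intro κ hκ h
      rw [mem_censF] at h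
      obtain ⟨t, _, h⟩ := h
      cases h)
    (by
      intro κ hκ h
      rw [mem_censF] at h
      obtain ⟨t, _, h⟩ := h
      obtain ⟨h1, h2, h3⟩ := Cx.cen.inj h
      exact ⟨mem_KK.2 ⟨hκ, h1, h2⟩, rfl⟩)
    (by
      intro c' i j' t' _ _ _
      constructor
      · intro h
        rw [mem_censF] at h
        obtain ⟨t, _, h⟩ := h
        cases h
      · intro h
        rw [mem_censF] at h
        obtain ⟨t, _, h⟩ := h
        cases h)
  rw [prod_count, filter_union, card_censF, card_empty] at key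
  have h1 := card_union_le ((leavesF c j).filter (· ∈ S)) ((censF c j).filter (· ∈ S))
  have h2 : 1 ≤ ((leavesF c j).filter (· ∈ S)).card := by
    rw [Nat.one_le_iff_ne_zero, Ne, card_eq_zero]
    intro h
    have : leaf c j t ∈ (leavesF c j).filter (· ∈ S) :=
      mem_filter.2 ⟨mem_leavesF.2 ⟨t, ht, rfl⟩, htS⟩
    rw [h] at this
    simp at this
  have h3 : 2 ≤ WW j := by unfold WW; omega
  set α := ((leavesF c j).filter (· ∈ S)).card
  have h4 : ((censF c j).filter (· ∈ S)).card = 0 := by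
    by_contra h
    set ζ := ((censF c j).filter (· ∈ S)).card
    obtain ⟨α', hα⟩ := Nat.exists_eq_add_of_le h2
    obtain ⟨ζ', hζ⟩ := Nat.exists_eq_add_of_le (Nat.one_le_iff_ne_zero.2 h)
    rw [hα, hζ] at key h1
    have : (1 + α') * (1 + ζ') = 1 + α' + ζ' + α' * ζ' := by ring
    have := Nat.zero_le (α' * ζ')
    omega
  constructor
  · intro w hw hwS
    rw [card_eq_zero] at h4
    have : cen c j w ∈ (censF c j).filter (· ∈ S) :=
      mem_filter.2 ⟨mem_censF.2 ⟨w, hw, rfl⟩, hwS⟩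
    rw [h4] at this
    simp at this
  · rw [h4, Nat.mul_zero] at key
    omega

theorem fact2 (c : ZMod 3) (i t j1 j2 : ℕ) (h1 : aa i ≤ t) (h2 : t < aa (i + 1))
    (hi : N ≤ i) (hj1 : i < j1) (hj2 : i < j2) (hne : j1 ≠ j2)
    (hx : leaf (c + 1) i t ∈ S) (hc1 : ∀ w < WW j1, cen c j1 w ∉ S)
    (hc2 : ∀ w < WW j2, cen c j2 w ∉ S) : False := by
  have ht1 : t < aa j1 := lt_of_lt_of_le h2 (aa_mono.monotone (by omega))
  have ht2 : t < aa j2 := lt_of_lt_of_le h2 (aa_mono.monotone (by omega))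
  have hc : c + 1 ≠ c := by
    intro h
    simp at h

  have key := stab_gen k hk hS 1 (by omega)
    ((range (WW j1)).image (fun w => (c, j1, t, w)) ∪ (range (WW j2)).image (fun w => (c, j2, t, w)))
    {leaf (c + 1) i t, leaf c j1 t, leaf c j2 t} {leaf c j1 t, leaf c j2 t}
    (({leaf c j1 t, leaf c j2 t} : Finset Cx).filter (· ∈ S) |>.image
      (fun l => (leaf (c + 1) i t, l)))
    (by intro x hx; simp only [mem_insert, mem_singleton] at hx ⊢; tauto)
    (by
      intro x hx
      simp only [mem_insert, mem_singleton] at hx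
      rcases hx with rfl | rfl | rfl <;> exact id)
    (by
      intro κ hκ
      simp only [mem_union, mem_image, mem_range] at hκ
      rcases hκ with ⟨w, hw, rfl⟩ | ⟨w, hw, rfl⟩
      · refine ⟨⟨lt_trans ht1 (aa_lt j1), hw⟩, fun i' _ hi' => ?_⟩
        have := hN _ hi'
        rw [lev_pt] at this
        dsimp only at this
        omega
      · refine ⟨⟨lt_trans ht2 (aa_lt j2), hw⟩, fun i' _ hi' => ?_⟩
        have := hN _ hi'
        rw [lev_pt] at this
        dsimp only at this
        omega)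
    (by
      intro r hr
      simp only [mem_image, mem_filter, mem_insert, mem_singleton] at hr
      obtain ⟨l, ⟨hl, hlS⟩, rfl⟩ := hr
      dsimp only
      have hX : ∀ c' j' t', N ≤ j' → leaf c' j' t' ∉ X0 := by
        intro c' j' t' hj' hmem
        have := hN _ hmem
        simp only [lev] at this
        omega
      rcases hl with rfl | rfl
      · exact ⟨.inr ⟨c, i, j1, t, h1, h2, hj1, rfl, rfl⟩, hx, hlS, .inl (by simp),
          hX _ _ _ hi, hX _ _ _ (by omega)⟩
      · exact ⟨.inr ⟨c, i, j2, t, h1, h2, hj2, rfl, rfl⟩, hx, hlS, .inl (by simp),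
          hX _ _ _ hi, hX _ _ _ (by omega)⟩)
    (by
      intro r hr
      simp only [mem_image, mem_filter, mem_insert, mem_singleton] at hr
      obtain ⟨l, ⟨hl, hlS⟩, rfl⟩ := hr
      refine ⟨id, ?_⟩
      rcases hl with rfl | rfl <;> exact id)
    (by intro κ hκ h; omega)
    (by
      intro κ hκ _ hcS
      simp only [mem_union, mem_image, mem_range] at hκ
      rcases hκ with ⟨w, hw, rfl⟩ | ⟨w, hw, rfl⟩
      · exact absurd hcS (hc1 w hw)
      · exact absurd hcS (hc2 w hw))
    (by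
      intro κ hκ h
      obtain ⟨c', j', t', w'⟩ := κ
      simp only [mem_insert, mem_singleton, Cx.leaf.injEq] at h
      refine ⟨?_, rfl⟩
      simp only [mem_union, mem_image, mem_range]
      rcases h with ⟨rfl, rfl, rfl⟩ | ⟨rfl, rfl, rfl⟩
      · exact .inl ⟨w', hκ.2, rfl⟩
      · exact .inr ⟨w', hκ.2, rfl⟩)
    (by
      intro κ hκ h
      simp at h)
    (by
      intro c' i' j' t' g1 g2 g3
      simp only [mem_insert, mem_singleton, Cx.leaf.injEq]
      constructor
      · intro h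
        exfalso
        rcases h with ⟨-, rfl, rfl⟩ | ⟨-, rfl, rfl⟩ <;> omega
      · intro h _
        rcases h with ⟨rfl, rfl, rfl⟩ | ⟨rfl, rfl, rfl⟩
        · have := fan_uniq h1 h2 g1 g2
          subst this
          exact .inl ⟨rfl, rfl, rfl⟩
        · have := fan_uniq h1 h2 g1 g2
          subst this
          exact .inl ⟨rfl, rfl, rfl⟩)
  rw [card_image_of_injective _ (fun a b h => (Prod.mk.inj h).2)] at key
  have e1 : ({leaf c j1 t, leaf c j2 t} : Finset Cx).card = 2 := by
    rw [card_pair]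
    intro h
    exact hne (Cx.leaf.inj h).2.1
  have e2 : (({leaf (c + 1) i t, leaf c j1 t, leaf c j2 t} : Finset Cx).filter (· ∈ S)).card ≤
      1 + (({leaf c j1 t, leaf c j2 t} : Finset Cx).filter (· ∈ S)).card := by
    rw [filter_insert, if_pos hx]
    refine le_trans (card_insert_le _ _) (by omega)
  omega

theorem fact3 (c : ZMod 3) (i t : ℕ) (hi : N ≤ i) (ht : t < aa (i + 1))
    (htS : leaf (c + 1) i t ∈ S) : ∃ N', ∀ j ≥ N', ∀ t < aa (j + 1), leaf c j t ∉ S := by
  obtain ⟨-, h1⟩ := fact1 hk hS hN (c + 1) i hi t ht htS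
  obtain ⟨s, hs1, hs2, hs3⟩ : ∃ s, aa i ≤ s ∧ s < aa (i + 1) ∧ leaf (c + 1) i s ∈ S := by
    by_contra hcon
    push Not at hcon
    have h2 : (leavesF (c + 1) i).filter (· ∈ S) ⊆ (range (aa i)).image (leaf (c + 1) i) := by
      intro x hx
      rw [mem_filter, mem_leavesF] at hx
      obtain ⟨⟨s, hs, rfl⟩, hxS⟩ := hx
      rw [mem_image]
      refine ⟨s, ?_, rfl⟩
      rw [mem_range]
      by_contra hs'
      exact hcon s (by omega) hs hxS
    have h3 := (card_le_card h2).trans card_image_le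
    rw [card_range] at h3
    unfold WW at h1
    omega
  -- at most one upper node has no centre in `S`
  by_cases hex : ∃ j0 > i, ∀ w < WW j0, cen c j0 w ∉ S
  · obtain ⟨j0, hj0, hc0⟩ := hex
    refine ⟨j0 + 1, fun j hj t' ht' hmem => ?_⟩
    exact fact2 hk hS hN c i s j0 j hs1 hs2 hi hj0 (by omega) (by omega) hs3 hc0
      (fact1 hk hS hN c j (by omega) t' ht' hmem).1
  · push Not at hex
    refine ⟨i + 1, fun j hj t' ht' hmem => ?_⟩
    obtain ⟨w, hw, hwS⟩ := hex j (by omega)
    exact (fact1 hk hS hN c j (by omega) t' ht' hmem).1 w hw hwS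

theorem fact4 (c : ZMod 3) (j : ℕ) (hj : N ≤ j) (h1 : ∀ t < aa (j + 1), leaf (c + 1) j t ∉ S)
    (h2 : ∀ i > j, ∀ t < aa (i + 1), leaf c i t ∉ S) : False := by
  have key := stab_gen k hk hS 1 (by omega) (KK (c + 1) j)
    (leavesF (c + 1) j ∪ censF (c + 1) j) (fansF (c + 1) j) ∅
    (by
      intro x hx
      rw [mem_fansF] at hx
      obtain ⟨t, g1, g2, rfl⟩ := hx
      exact mem_union_left _ (mem_leavesF.2 ⟨t, g2, rfl⟩))
    (by
      intro x hx
      rw [mem_union, mem_leavesF, mem_censF] at hx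
      rcases hx with ⟨t, _, rfl⟩ | ⟨t, _, rfl⟩ <;> exact id)
    (by
      intro κ hκ
      rw [mem_KK] at hκ
      refine ⟨hκ.1, fun i _ hi => ?_⟩
      have := hN _ hi
      rw [lev_pt] at this
      omega)
    (by simp) (by simp)
    (by intro κ hκ h; omega)
    (by
      intro κ hκ _ _
      rw [mem_KK] at hκ
      obtain ⟨g1, g2, g3⟩ := hκ
      rw [g2, g3]
      refine mem_union_right _ (mem_censF.2 ⟨_, ?_, rfl⟩)
      have := g1.2
      rwa [g3] at this)
    (by
      intro κ hκ h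
      rw [mem_fansF] at h
      obtain ⟨t, _, _, h⟩ := h
      obtain ⟨g1, g2, g3⟩ := Cx.leaf.inj h
      exact ⟨mem_KK.2 ⟨hκ, g1, g2⟩, rfl⟩)
    (by
      intro κ hκ h
      rw [mem_fansF] at h
      obtain ⟨t, _, _, h⟩ := h
      cases h)
    (by
      intro c' i' j' t' g1 g2 g3
      constructor
      · intro h
        rw [mem_fansF] at h
        obtain ⟨t, g4, g5, h⟩ := h
        obtain ⟨g6, g7, g8⟩ := Cx.leaf.inj h
        have g6' : c' = c := by simpa using g6
        subst g6' g7 g8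
        constructor
        · intro h'
          rw [mem_fansF] at h'
          obtain ⟨t, g4, g5, h'⟩ := h'
          have := (Cx.leaf.inj h').2.1
          omega
        · intro h'
          exact absurd h' (h2 j' g3 t' (lt_of_lt_of_le g2 (aa_mono.monotone (by omega))))
      · intro h
        rw [mem_fansF] at h
        obtain ⟨t, g4, g5, h⟩ := h
        obtain ⟨g6, g7, g8⟩ := Cx.leaf.inj h
        subst g7 g8
        have := aa_mono.monotone (show i' + 1 ≤ j' by omega)
        omega)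
  rw [card_fansF, card_empty] at key
  have h3 : ((leavesF (c + 1) j ∪ censF (c + 1) j).filter (· ∈ S)) ⊆ censF (c + 1) j := by
    intro x hx
    rw [mem_filter, mem_union, mem_leavesF] at hx
    rcases hx.1 with ⟨t, ht, rfl⟩ | h
    · exact absurd hx.2 (h1 t ht)
    · exact h
  have h4 := card_le_card h3
  rw [card_censF] at h4
  unfold WW at h4
  omega

end

theorem not_stab (k : ℕ) (hk : 1 ≤ k) (S : Set Cx) (X0 : Finset Cx) : ¬ Stab (Ar k) S X0 := by
  intro hS
  obtain ⟨N, hN⟩ : ∃ N, ∀ x ∈ X0, lev x < N := by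
    refine ⟨(X0.sup lev) + 1, fun x hx => ?_⟩
    have := le_sup (f := lev) hx
    omega
  let op : ZMod 3 → Prop := fun c => ∃ N', ∀ j ≥ N', ∀ t < aa (j + 1), leaf c j t ∉ S
  have h1 : ∀ c, op (c + 1) ∨ op c := by
    intro c
    by_cases h : ∃ i ≥ N, ∃ t < aa (i + 1), leaf (c + 1) i t ∈ S
    · obtain ⟨i, hi, t, ht, htS⟩ := h
      exact .inr (fact3 hk hS hN c i t hi ht htS)
    · push Not at h
      exact .inl ⟨N, h⟩
  have h2 : ∃ c, op (c + 1) ∧ op c := by
    have e1 : (0 : ZMod 3) + 1 = 1 := by decide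
    have e2 : (1 : ZMod 3) + 1 = 2 := by decide
    have e3 : (2 : ZMod 3) + 1 = 0 := by decide
    have a0 := h1 0
    have a1 := h1 1
    have a2 := h1 2
    rw [e1] at a0
    rw [e2] at a1
    rw [e3] at a2
    by_cases b0 : op 0
    · by_cases b1 : op 1
      · exact ⟨0, by rwa [e1], b0⟩
      · have b2 : op 2 := by tauto
        exact ⟨2, by rwa [e3], b2⟩
    · have b1 : op 1 := by tauto
      have b2 : op 2 := by tauto
      exact ⟨1, by rwa [e2], b1⟩
  obtain ⟨c, ⟨N1, h3⟩, N2, h4⟩ := h2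
  exact fact4 hk hS hN c (max N (max N1 N2)) (le_max_left _ _)
    (h3 _ ((le_max_left _ _).trans (le_max_right _ _)))
    (fun i hi => h4 i (le_trans ((le_max_right _ _).trans (le_max_right _ _)) hi.le))

theorem unst (k : ℕ) (hk : 1 ≤ k) : Unst (Ar k) := by
  intro S X0
  by_contra hcon
  apply not_stab k hk S X0
  intro D B R h1 h2 h3 h4
  by_contra hlt
  exact hcon ⟨D, B, R, h1, h2, h3, h4, by omega⟩

/-- the conflict structures -/
theorem exists_conflict (n : ℕ) : ∃ A : Cx → Cx → Prop, Unst A ∧ Acyc A (2 * (n + 1)) :=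
  ⟨Ar (n + 1), unst (n + 1) (by omega), acyc (n + 1) (by omega)⟩

end Pool.Agent.H165R2.SM
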