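import Mathlib

/-!
# Even edge sets and circuits
-/

open Finset
open scoped Classical symmDiff

namespace Pool.Agent.H165R2.SM

section
variable {V : Type*}

/-- the number of edges of `Z` at `v` -/
noncomputable def dg (Z : Finset (Sym2 V)) (v : V) : ℕ := (Z.filter (fun e => v ∈ e)).card

/-- all degrees are even -/
def Ev (Z : Finset (Sym2 V)) : Prop := ∀ v, Even (dg Z v)

/-- minimal nonempty even sets -/
def Circ (Z : Finset (Sym2 V)) : Prop :=
  Z.Nonempty ∧ Ev Z ∧ ∀ Z' ⊆ Z, Z'.Nonempty → Ev Z' → Z' = Z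

theorem dg_union {A B : Finset (Sym2 V)} (h : Disjoint A B) (v : V) :
    dg (A ∪ B) v = dg A v + dg B v := by
  rw [dg, filter_union, card_union_of_disjoint (disjoint_filter_filter h)]
  rfl

theorem dg_sdiff {A Z : Finset (Sym2 V)} (h : A ⊆ Z) (v : V) :
    dg Z v = dg A v + dg (Z \ A) v := by
  rw [← dg_union disjoint_sdiff, union_sdiff_of_subset h]

theorem dg_insert {Z : Finset (Sym2 V)} {e : Sym2 V} (he : e ∉ Z) (v : V) :
    dg (insert e Z) v = (if v ∈ e then 1 else 0) + dg Z v := by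
  have : insert e Z = {e} ∪ Z := rfl
  rw [this, dg_union (disjoint_singleton_left.2 he)]
  congr 1
  rw [dg, filter_singleton]
  split_ifs <;> simp

theorem dg_eq_zero {Z : Finset (Sym2 V)} {v : V} (h : ∀ e ∈ Z, v ∉ e) : dg Z v = 0 := by
  rw [dg, card_eq_zero, filter_eq_empty_iff]
  exact h

theorem dg_mono {A Z : Finset (Sym2 V)} (h : A ⊆ Z) (v : V) : dg A v ≤ dg Z v :=
  card_le_card (filter_subset_filter _ h)

theorem Ev.sdiff {A Z : Finset (Sym2 V)} (hA : Ev A) (hZ : Ev Z) (h : A ⊆ Z) : Ev (Z \ A) := by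
  intro v
  have h1 := dg_sdiff h v
  have h2 := hZ v
  have h3 := hA v
  rw [h1, Nat.even_add] at h2
  exact h2.1 h3

theorem Ev.symmDiff {A B : Finset (Sym2 V)} (hA : Ev A) (hB : Ev B) : Ev (A ∆ B) := by
  intro v
  have e1 : dg (A ∆ B) v = dg (A \ B) v + dg (B \ A) v := by
    rw [← dg_union]
    · rfl
    · rw [disjoint_left]
      intro e h1 h2
      exact (mem_sdiff.1 h2).2 (mem_sdiff.1 h1).1
  have e2 : dg A v = dg (A ∩ B) v + dg (A \ B) v := by
    rw [dg_sdiff (inter_subset_left : A ∩ B ⊆ A)]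
    congr 2
    ext e; simp
  have e3 : dg B v = dg (A ∩ B) v + dg (B \ A) v := by
    rw [dg_sdiff (inter_subset_right : A ∩ B ⊆ B)]
    congr 2
    ext e; simp
  have h1 := hA v
  have h2 := hB v
  rw [Nat.even_iff] at *
  omega

theorem handshake {Z : Finset (Sym2 V)} (hd : ∀ e ∈ Z, ¬ e.IsDiag) {s t : V} (hst : s ≠ t)
    (h : ∀ v, v ≠ s → v ≠ t → Even (dg Z v)) : Even (dg Z s) ↔ Even (dg Z t) := by
  set U : Finset V := insert s (insert t (Z.biUnion fun e => e.toFinset)) with hU
  have h1 : ∑ v ∈ U, dg Z v = ∑ e ∈ Z, 2 := by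
    simp only [dg, card_filter]
    rw [sum_comm]
    refine sum_congr rfl fun e he => ?_
    rw [← card_filter]
    have : U.filter (fun v => v ∈ e) = e.toFinset := by
      ext v
      simp only [mem_filter, hU, mem_insert, mem_biUnion, Sym2.mem_toFinset]
      constructor
      · exact fun h => h.2
      · exact fun h => ⟨.inr (.inr ⟨e, he, h⟩), h⟩
    rw [this, Sym2.card_toFinset_of_not_isDiag e (hd e he)]
  have hs : s ∈ U := mem_insert_self _ _
  have ht : t ∈ U.erase s := mem_erase.2 ⟨hst.symm, mem_insert_of_mem (mem_insert_self _ _)⟩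
  rw [← add_sum_erase U _ hs, ← add_sum_erase _ _ ht] at h1
  have h2 : Even (∑ v ∈ (U.erase s).erase t, dg Z v) := by
    apply even_sum
    intro v hv
    simp only [mem_erase] at hv
    exact h v hv.2.1 hv.1
  have h3 : Even (∑ e ∈ Z, 2) := even_sum _ fun _ _ => even_two
  rw [← h1, Nat.even_add, Nat.even_add] at h3
  tauto

theorem exists_circ {Z : Finset (Sym2 V)} (hZ : Ev Z) {e : Sym2 V} (he : e ∈ Z) :
    ∃ C ⊆ Z, Circ C ∧ e ∈ C := by
  have hne : (Z.powerset.filter (fun C => Ev C ∧ e ∈ C)).Nonempty :=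
    ⟨Z, mem_filter.2 ⟨mem_powerset_self Z, hZ, he⟩⟩
  obtain ⟨C, hC, hmin⟩ := exists_min_image _ card hne
  rw [mem_filter, mem_powerset] at hC
  refine ⟨C, hC.1, ⟨⟨e, hC.2.2⟩, hC.2.1, ?_⟩, hC.2.2⟩
  intro C' hC' hne' hE
  by_contra hcon
  have hlt : C'.card < C.card := card_lt_card (hC'.ssubset_of_ne hcon)
  by_cases heC : e ∈ C'
  · have := hmin C' (mem_filter.2 ⟨mem_powerset.2 (hC'.trans hC.1), hE, heC⟩)
    omega
  · have := hmin (C \ C') (mem_filter.2 ⟨mem_powerset.2 (sdiff_subset.trans hC.1),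
      hE.sdiff hC.2.1 hC', mem_sdiff.2 ⟨hC.2.2, heC⟩⟩)
    rw [card_sdiff_of_subset hC'] at this
    have := hne'.card_pos
    omega

/-- two edges lie on a common circuit inside `E` -/
def Rl (E : Finset (Sym2 V)) (e g : Sym2 V) : Prop := ∃ C ⊆ E, Circ C ∧ e ∈ C ∧ g ∈ C

theorem circ_trans {E C1 C2 : Finset (Sym2 V)} {e g : Sym2 V} (h1 : C1 ⊆ E) (h2 : C2 ⊆ E)
    (hC1 : Circ C1) (hC2 : Circ C2) (he : e ∈ C1) (hg : g ∈ C2) (hi : (C1 ∩ C2).Nonempty) :
    Rl E e g := by
  by_contra hcon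
  induction hn : (C1 ∪ C2).card using Nat.strong_induction_on generalizing C1 C2 with
  | _ n ih =>
  subst hn
  have he2 : e ∉ C2 := fun h => hcon ⟨C2, h2, hC2, h, hg⟩
  have hg1 : g ∉ C1 := fun h => hcon ⟨C1, h1, hC1, he, h⟩
  have hsd : Ev (C1 ∆ C2) := hC1.2.1.symmDiff hC2.2.1
  obtain ⟨C3, hC3s, hC3, he3⟩ := exists_circ hsd (e := e) (by
    rw [mem_symmDiff]; exact .inl ⟨he, he2⟩)
  obtain ⟨C4, hC4s, hC4, hg4⟩ := exists_circ hsd (e := g) (by
    rw [mem_symmDiff]; exact .inr ⟨hg, hg1⟩)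
  have hsub : C1 ∆ C2 ⊆ C1 ∪ C2 := by
    intro x hx
    rw [mem_symmDiff] at hx
    rw [mem_union]
    tauto
  have h12 : C1 ∪ C2 ⊆ E := union_subset h1 h2
  obtain ⟨f, hf⟩ := hi
  rw [mem_inter] at hf
  have hf' : f ∉ C1 ∆ C2 := by
    rw [mem_symmDiff]; tauto
  -- `C3` meets `C2 \ C1`
  have m3 : ∃ x ∈ C3, x ∈ C2 ∧ x ∉ C1 := by
    by_contra hno
    push Not at hno
    have h3 : C3 ⊆ C1 := by
      intro x hx
      have := hC3s hx
      rw [mem_symmDiff] at this
      rcases this with h | h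
      · exact h.1
      · exact hno x hx h.1
    have := hC1.2.2 C3 h3 ⟨e, he3⟩ hC3.2.1
    rw [this] at hC3s
    exact hf' (hC3s hf.1)
  have m4 : ∃ x ∈ C4, x ∈ C1 ∧ x ∉ C2 := by
    by_contra hno
    push Not at hno
    have h3 : C4 ⊆ C2 := by
      intro x hx
      have := hC4s hx
      rw [mem_symmDiff] at this
      rcases this with h | h
      · exact hno x hx h.1
      · exact h.1
    have := hC2.2.2 C4 h3 ⟨g, hg4⟩ hC4.2.1
    rw [this] at hC4s
    exact hf' (hC4s hf.2)
  obtain ⟨x, hx3, hx2, hx1⟩ := m3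
  obtain ⟨y, hy4, hy1, hy2⟩ := m4
  have hfu : f ∈ C1 ∪ C2 := mem_union_left _ hf.1
  -- `C3 ∩ C4` is empty
  by_cases hi34 : (C3 ∩ C4).Nonempty
  · refine ih (C3 ∪ C4).card ?_ ((hC3s.trans hsub).trans h12) ((hC4s.trans hsub).trans h12)
      hC3 hC4 he3 hg4 hi34 rfl
    refine card_lt_card ⟨union_subset (hC3s.trans hsub) (hC4s.trans hsub), fun h => ?_⟩
    have := h hfu
    rw [mem_union] at this
    rcases this with h | h
    · exact hf' (hC3s h)
    · exact hf' (hC4s h)
  · -- `C3 ∪ C2` and `C1 ∪ C4` are not smaller than `C1 ∪ C2`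
    have s1 : C1 ∪ C2 ⊆ C3 ∪ C2 := by
      by_contra hns
      refine ih (C3 ∪ C2).card ?_ ((hC3s.trans hsub).trans h12) h2 hC3 hC2 he3 hg
        ⟨x, mem_inter.2 ⟨hx3, hx2⟩⟩ rfl
      exact card_lt_card ⟨union_subset (hC3s.trans hsub) subset_union_right, hns⟩
    apply hi34
    have := s1 (mem_union_left _ hy1)
    rw [mem_union] at this
    exact ⟨y, mem_inter.2 ⟨this.resolve_right hy2, hy4⟩⟩

theorem Rl.trans {E : Finset (Sym2 V)} {e f g : Sym2 V} (h1 : Rl E e f) (h2 : Rl E f g) :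
    Rl E e g := by
  obtain ⟨C1, hs1, hC1, a1, b1⟩ := h1
  obtain ⟨C2, hs2, hC2, a2, b2⟩ := h2
  exact circ_trans hs1 hs2 hC1 hC2 a1 b2 ⟨f, mem_inter.2 ⟨b1, a2⟩⟩

theorem Rl.symm {E : Finset (Sym2 V)} {e f : Sym2 V} (h1 : Rl E e f) : Rl E f e := by
  obtain ⟨C1, hs1, hC1, a1, b1⟩ := h1
  exact ⟨C1, hs1, hC1, b1, a1⟩

/-! ### images under injective maps -/

variable {V' : Type*}

noncomputable def im (f : V → V') (Z : Finset (Sym2 V)) : Finset (Sym2 V') := Z.image (Sym2.map f)

theorem dg_im {f : V → V'} (hf : Function.Injective f) (Z : Finset (Sym2 V)) (v : V) :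
    dg (im f Z) (f v) = dg Z v := by
  rw [dg, im, filter_image, card_image_of_injective _ (Sym2.map.injective hf), dg]
  congr 1
  ext e
  simp only [mem_filter, Sym2.mem_map]
  constructor
  · rintro ⟨h1, w, h2, h3⟩
    rw [hf h3] at h2
    exact ⟨h1, h2⟩
  · rintro ⟨h1, h2⟩
    exact ⟨h1, v, h2, rfl⟩

theorem Ev_im {f : V → V'} (hf : Function.Injective f) {Z : Finset (Sym2 V)} :
    Ev (im f Z) ↔ Ev Z := by
  constructor
  · intro h v
    rw [← dg_im hf]
    exact h _
  · intro h w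
    by_cases hw : ∃ v, f v = w
    · obtain ⟨v, rfl⟩ := hw
      rw [dg_im hf]
      exact h v
    · rw [dg_eq_zero]
      · exact Even.zero
      · intro e he hwe
        simp only [im, mem_image] at he
        obtain ⟨e', -, rfl⟩ := he
        rw [Sym2.mem_map] at hwe
        obtain ⟨v, -, hv⟩ := hwe
        exact hw ⟨v, hv⟩

theorem im_injective {f : V → V'} (hf : Function.Injective f) :
    Function.Injective (im f : Finset (Sym2 V) → Finset (Sym2 V')) :=
  image_injective (Sym2.map.injective hf)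

theorem Circ_im {f : V → V'} (hf : Function.Injective f) {Z : Finset (Sym2 V)} :
    Circ (im f Z) ↔ Circ Z := by
  constructor
  · rintro ⟨h1, h2, h3⟩
    refine ⟨by simpa [im] using h1, (Ev_im hf).1 h2, fun Z' hZ' hne hE => ?_⟩
    exact im_injective hf (h3 (im f Z') (image_subset_image hZ') (hne.image _) ((Ev_im hf).2 hE))
  · rintro ⟨h1, h2, h3⟩
    refine ⟨h1.image _, (Ev_im hf).2 h2, fun Z' hZ' hne hE => ?_⟩
    obtain ⟨Z'', hZ'', rfl⟩ := subset_image_iff.1 hZ'
    rw [h3 Z'' hZ'' (by simpa using hne) ((Ev_im hf).1 hE)]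
    rfl

theorem card_im {f : V → V'} (hf : Function.Injective f) (Z : Finset (Sym2 V)) :
    (im f Z).card = Z.card := card_image_of_injective _ (Sym2.map.injective hf)

/-- circuits of `E` through `e` of size `l` -/
noncomputable def circs (E : Finset (Sym2 V)) (e : Sym2 V) (l : ℕ) : Finset (Finset (Sym2 V)) :=
  E.powerset.filter (fun C => Circ C ∧ e ∈ C ∧ C.card = l)

theorem mem_circs {E : Finset (Sym2 V)} {e : Sym2 V} {l : ℕ} {C : Finset (Sym2 V)} :
    C ∈ circs E e l ↔ C ⊆ E ∧ Circ C ∧ e ∈ C ∧ C.card = l := by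
  simp [circs]

theorem card_circs_im {f : V → V'} (hf : Function.Injective f) (E : Finset (Sym2 V))
    (e : Sym2 V) (l : ℕ) : (circs (im f E) (Sym2.map f e) l).card = (circs E e l).card := by
  rw [← card_image_of_injective (circs E e l) (im_injective hf)]
  congr 1
  ext C
  rw [mem_circs, mem_image]
  constructor
  · rintro ⟨h1, h2, h3, h4⟩
    obtain ⟨C', hC', rfl⟩ := subset_image_iff.1 h1
    refine ⟨C', mem_circs.2 ⟨hC', (Circ_im hf).1 h2, ?_, ?_⟩, rfl⟩
    · rw [mem_image] at h3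
      obtain ⟨e', he', h⟩ := h3
      rwa [← Sym2.map.injective hf h]
    · rw [← h4]
      exact (card_im hf C').symm
  · rintro ⟨C', hC', rfl⟩
    rw [mem_circs] at hC'
    obtain ⟨h1, h2, h3, h4⟩ := hC'
    exact ⟨image_subset_image h1, (Circ_im hf).2 h2, mem_image_of_mem _ h3, by rw [card_im hf, h4]⟩

/-! ### projecting a circuit across a 2-separation -/

/-- parity of the two halves of an even set -/
theorem half_parity {A B Z : Finset (Sym2 V)} {s t : V} (hst : s ≠ t)
    (hd : ∀ e ∈ Z, ¬ e.IsDiag)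
    (hAB : ∀ v, (∃ e ∈ A, v ∈ e) → (∃ e ∈ B, v ∈ e) → v = s ∨ v = t)
    (hZ : Ev Z) (hdisj : Disjoint A B) (hun : Z = A ∪ B) :
    (∀ v, v ≠ s → v ≠ t → Even (dg A v)) ∧ (Even (dg A s) ↔ Even (dg A t)) := by
  have h1 : ∀ v, v ≠ s → v ≠ t → Even (dg A v) := by
    intro v hvs hvt
    by_cases hA : ∃ e ∈ A, v ∈ e
    · have hB : ¬ ∃ e ∈ B, v ∈ e := by
        intro hB
        rcases hAB v hA hB with h | h
        · exact hvs h
        · exact hvt h
      push Not at hB
      have := hZ v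
      rwa [hun, dg_union hdisj, dg_eq_zero hB, Nat.add_zero] at this
    · push Not at hA
      rw [dg_eq_zero hA]
      exact Even.zero
  refine ⟨h1, handshake (fun e he => hd e ?_) hst h1⟩
  rw [hun]
  exact mem_union_left _ he

theorem Ev_of {Z : Finset (Sym2 V)} {s t : V} (h1 : ∀ v, v ≠ s → v ≠ t → Even (dg Z v))
    (h2 : Even (dg Z s) ↔ Even (dg Z t)) (h3 : Even (dg Z s)) : Ev Z := by
  intro v
  by_cases hs : v = s
  · rw [hs]; exact h3
  · by_cases ht : v = t
    · rw [ht]; exact h2.1 h3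
    · exact h1 v hs ht

theorem Ev_insert {Z : Finset (Sym2 V)} {s t : V} (hn : s(s, t) ∉ Z)
    (h1 : ∀ v, v ≠ s → v ≠ t → Even (dg Z v))
    (h2 : Even (dg Z s) ↔ Even (dg Z t)) (h3 : ¬ Even (dg Z s)) : Ev (insert s(s, t) Z) := by
  intro v
  rw [dg_insert hn]
  by_cases hs : v = s
  · subst hs
    rw [if_pos (Sym2.mem_mk_left _ _), Nat.even_add]
    simp [h3]
  · by_cases ht : v = t
    · subst ht
      rw [if_pos (Sym2.mem_mk_right _ _), Nat.even_add]
      rw [h2] at h3
      simp [h3]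
    · rw [if_neg, Nat.zero_add]
      · exact h1 v hs ht
      · rw [Sym2.mem_iff]
        tauto

theorem Circ.proj {A B Z : Finset (Sym2 V)} {s t : V} (hst : s ≠ t)
    (hd : ∀ e ∈ Z, ¬ e.IsDiag) (hC : Circ Z)
    (hAB : ∀ v, (∃ e ∈ A, v ∈ e) → (∃ e ∈ B, v ∈ e) → v = s ∨ v = t)
    (hdisj : Disjoint A B) (hun : Z = A ∪ B) (hA : A.Nonempty) (hB : B.Nonempty)
    (hn : s(s, t) ∉ Z) :
    Circ (insert s(s, t) A) ∧ (insert s(s, t) A).card < Z.card := by
  have hZ := hC.2.1
  obtain ⟨a1, a2⟩ := half_parity hst hd hAB hZ hdisj hun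
  obtain ⟨b1, b2⟩ := half_parity hst hd (fun v h h' => hAB v h' h) hZ hdisj.symm
    (by rw [hun, union_comm])
  have hAZ : A ⊆ Z := by rw [hun]; exact subset_union_left
  have hBZ : B ⊆ Z := by rw [hun]; exact subset_union_right
  have hAne : A ≠ Z := by
    rintro rfl
    obtain ⟨e, he⟩ := hB
    exact disjoint_left.1 hdisj (hBZ he) he
  have hBne : B ≠ Z := by
    rintro rfl
    obtain ⟨e, he⟩ := hA
    exact disjoint_left.1 hdisj he (hAZ he)
  have a3 : ¬ Even (dg A s) := fun h => hAne (hC.2.2 A hAZ hA (Ev_of a1 a2 h))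
  have b3 : ¬ Even (dg B s) := fun h => hBne (hC.2.2 B hBZ hB (Ev_of b1 b2 h))
  have hnA : s(s, t) ∉ A := fun h => hn (hAZ h)
  have hnB : s(s, t) ∉ B := fun h => hn (hBZ h)
  refine ⟨⟨insert_nonempty _ _, Ev_insert hnA a1 a2 a3, ?_⟩, ?_⟩
  · intro Z' hZ' hne hE
    by_cases hs : s(s, t) ∈ Z'
    · -- lift it back
      set A' := Z'.erase s(s, t) with hA'
      have hA'A : A' ⊆ A := by
        intro e he
        rw [hA', mem_erase] at he
        exact (mem_insert.1 (hZ' he.2)).resolve_left he.1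
      have hdisj' : Disjoint A' B := disjoint_of_subset_left hA'A hdisj
      have hins : Z' = insert s(s, t) A' := (insert_erase hs).symm
      have hEv : Ev (A' ∪ B) := by
        intro v
        rw [dg_union hdisj']
        have h1 := hE v
        rw [hins, dg_insert (fun h => hnA (hA'A h))] at h1
        by_cases hvs : v = s
        · subst hvs
          rw [if_pos (Sym2.mem_mk_left _ _)] at h1
          rw [Nat.even_iff] at *
          omega
        · by_cases hvt : v = t
          · subst hvt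
            rw [if_pos (Sym2.mem_mk_right _ _)] at h1
            rw [b2] at b3
            rw [Nat.even_iff] at *
            omega
          · rw [if_neg, Nat.zero_add] at h1
            · have := b1 v hvs hvt
              rw [Nat.even_add]
              tauto
            · rw [Sym2.mem_iff]
              tauto
      have heq := hC.2.2 (A' ∪ B) (union_subset (hA'A.trans hAZ) hBZ)
        (hB.mono subset_union_right) hEv
      have : A' = A := by
        apply Subset.antisymm hA'A
        intro e he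
        have h1 := hAZ he
        rw [← heq, mem_union] at h1
        rcases h1 with h | h
        · exact h
        · exact absurd h (disjoint_left.1 hdisj he)
      rw [hins, this]
    · exfalso
      have hsub : Z' ⊆ A := by
        intro e he
        rcases mem_insert.1 (hZ' he) with h | h
        · subst h; exact absurd he hs
        · exact h
      have := hC.2.2 Z' (hsub.trans hAZ) hne hE
      rw [this] at hsub
      exact hAne (Subset.antisymm hAZ hsub)
  · rw [card_insert_of_notMem hnA, hun, card_union_of_disjoint hdisj]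
    have h2 : 2 ≤ B.card := by
      by_contra hlt
      have h1 : B.card = 1 := by
        have := hB.card_pos
        omega
      obtain ⟨e, he⟩ := card_eq_one.1 h1
      have hs : s ∈ e := by
        by_contra hse
        apply b3
        rw [he, dg_eq_zero (by simpa using hse)]
        exact Even.zero
      have ht : t ∈ e := by
        by_contra hse
        rw [b2] at b3
        apply b3
        rw [he, dg_eq_zero (by simpa using hse)]
        exact Even.zero
      have : e = s(s, t) := ((Sym2.mem_and_mem_iff hst).1 ⟨hs, ht⟩)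
      rw [this] at he
      exact hnB (by rw [he]; exact mem_singleton_self _)
    omega

/-- a circuit containing the edge `s(s, t)` does not cross a 2-separation with these ends -/
theorem Circ.no_cross {A B Z : Finset (Sym2 V)} {s t : V} (hst : s ≠ t)
    (hd : ∀ e ∈ Z, ¬ e.IsDiag) (hC : Circ Z)
    (hAB : ∀ v, (∃ e ∈ A, v ∈ e) → (∃ e ∈ B, v ∈ e) → v = s ∨ v = t)
    (hdisj : Disjoint A B) (hun : Z = insert s(s, t) (A ∪ B)) (hA : A.Nonempty) (hB : B.Nonempty)
    (hnA : s(s, t) ∉ A) (hnB : s(s, t) ∉ B) : False := by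
  have hZ := hC.2.1
  have hAZ : A ⊆ Z := by rw [hun]; exact (subset_union_left).trans (subset_insert _ _)
  have hBZ : B ⊆ Z := by rw [hun]; exact (subset_union_right).trans (subset_insert _ _)
  have hsZ : s(s, t) ∈ Z := by rw [hun]; exact mem_insert_self _ _
  have hdisj2 : Disjoint A (insert s(s, t) B) := by
    rw [disjoint_insert_right]
    exact ⟨hnA, hdisj⟩
  obtain ⟨a1, a2⟩ := half_parity (A := A) (B := insert s(s, t) B) (s := s) (t := t) hst hd
    (by
      rintro v h ⟨e, he, hv⟩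
      rcases mem_insert.1 he with rfl | he
      · exact Sym2.mem_iff.1 hv
      · exact hAB v h ⟨e, he, hv⟩) hZ hdisj2 (by rw [hun, union_insert])
  by_cases a3 : Even (dg A s)
  · have := hC.2.2 A hAZ hA (Ev_of a1 a2 a3)
    rw [← this] at hBZ
    obtain ⟨e, he⟩ := hB
    exact disjoint_left.1 hdisj (hBZ he) he
  · have := hC.2.2 (insert s(s, t) A) (insert_subset hsZ hAZ) (insert_nonempty _ _)
      (Ev_insert hnA a1 a2 a3)
    rw [← this] at hBZ
    obtain ⟨e, he⟩ := hB
    rcases mem_insert.1 (hBZ he) with h | h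
    · subst h; exact hnB he
    · exact disjoint_left.1 hdisj h he

end

end Pool.Agent.H165R2.SM
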