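import Pool.Agent.H165R2.SM3
import Pool.Agent.H165R2.SM4

/-!
# The hub host and its 2-separations
-/

open Finset
open scoped Classical symmDiff

namespace Pool.Agent.H165R2.SM

inductive HV (X W : Type) : Type
  | hub : HV X W
  | vx (x : X) : HV X W
  | prv (x y : X) (u : W) : HV X W

open HV

/-- the data of a host: a finite edge set, a vertex `v0` and two neighbours -/
structure Dat (X W : Type) where
  A : X → X → Prop
  n : ℕ
  hn : 2 ≤ n
  acyc : Acyc A n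
  E : Finset (Sym2 W)
  nd : ∀ e ∈ E, ¬ e.IsDiag
  v0 : W
  p : W
  q : W
  hpq : p ≠ q
  hp : s(v0, p) ∈ E
  hq : s(v0, q) ∈ E

namespace Dat

variable {X W : Type} (h : Dat X W)

theorem v0p : h.v0 ≠ h.p := fun e => h.nd _ h.hp (by rw [e]; exact Sym2.diag_isDiag _)
theorem v0q : h.v0 ≠ h.q := fun e => h.nd _ h.hq (by rw [e]; exact Sym2.diag_isDiag _)

/-- the embedding of the gadget `(x, y)` -/
noncomputable def io (x y : X) (u : W) : HV X W :=
  if u = h.v0 then hub else if u = h.p then vx x else if u = h.q then vx y else prv x y u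

theorem io_v0 (x y : X) : h.io x y h.v0 = hub := by simp [io]
theorem io_p (x y : X) : h.io x y h.p = vx x := by simp [io, h.v0p.symm]
theorem io_q (x y : X) : h.io x y h.q = vx y := by simp [io, h.v0q.symm, h.hpq.symm]
theorem io_ne (x y : X) {u : W} (h0 : u ≠ h.v0) (h1 : u ≠ h.p) (h2 : u ≠ h.q) :
    h.io x y u = prv x y u := by simp [io, h0, h1, h2]

theorem io_cases (x y : X) (u : W) : (u = h.v0 ∧ h.io x y u = hub) ∨
    (u = h.p ∧ h.io x y u = vx x) ∨ (u = h.q ∧ h.io x y u = vx y) ∨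
    (u ≠ h.v0 ∧ u ≠ h.p ∧ u ≠ h.q ∧ h.io x y u = prv x y u) := by
  by_cases h0 : u = h.v0
  · exact .inl ⟨h0, by rw [h0]; exact h.io_v0 x y⟩
  · by_cases h1 : u = h.p
    · exact .inr (.inl ⟨h1, by rw [h1]; exact h.io_p x y⟩)
    · by_cases h2 : u = h.q
      · exact .inr (.inr (.inl ⟨h2, by rw [h2]; exact h.io_q x y⟩))
      · exact .inr (.inr (.inr ⟨h0, h1, h2, h.io_ne x y h0 h1 h2⟩))

theorem io_inj {x y : X} (hxy : x ≠ y) : Function.Injective (h.io x y) := by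
  intro u w e
  rcases h.io_cases x y u with ⟨rfl, e1⟩ | ⟨rfl, e1⟩ | ⟨rfl, e1⟩ | ⟨_, _, _, e1⟩ <;>
    rcases h.io_cases x y w with ⟨rfl, e2⟩ | ⟨rfl, e2⟩ | ⟨rfl, e2⟩ | ⟨_, _, _, e2⟩ <;>
    have e3 := e1.symm.trans (e.trans e2)
  all_goals first
    | rfl
    | (cases e3; done)
    | (exact absurd (HV.vx.inj e3) hxy)
    | (exact absurd (HV.vx.inj e3).symm hxy)
    | (exact (HV.prv.inj e3).2.2)

theorem irr (x : X) : ¬ h.A x x := h.acyc.irrefl (by have := h.hn; omega) x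
theorem asy (x y : X) : h.A x y → ¬ h.A y x := h.acyc.asymm h.hn x y

theorem ne_of {x y : X} (hA : h.A x y) : x ≠ y := by
  rintro rfl
  exact h.irr x hA

/-- the edges of the gadget -/
noncomputable def T (x y : X) : Finset (Sym2 (HV X W)) := im (h.io x y) h.E

/-- choice edges -/
def ch (W : Type) {X : Type} (x : X) : Sym2 (HV X W) := s(hub, vx x)

/-- private edges -/
noncomputable def Pr (x y : X) : Finset (Sym2 (HV X W)) := (h.T x y) \ {ch W x, ch W y}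

/-- the edges of the host -/
def Gs : Set (Sym2 (HV X W)) := fun e => (∃ x, e = ch W x) ∨ ∃ x y, h.A x y ∧ e ∈ h.T x y

theorem ch_T1 (x y : X) : ch W x ∈ h.T x y := by
  rw [T, im, mem_image]
  exact ⟨s(h.v0, h.p), h.hp, by rw [Sym2.map_mk, h.io_v0, h.io_p]; rfl⟩

theorem ch_T2 (x y : X) : ch W y ∈ h.T x y := by
  rw [T, im, mem_image]
  exact ⟨s(h.v0, h.q), h.hq, by rw [Sym2.map_mk, h.io_v0, h.io_q]; rfl⟩

theorem ch_inj {x y : X} (e : ch W x = ch W y) : x = y := by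
  unfold ch at e
  rw [Sym2.eq_iff] at e
  rcases e with ⟨-, e⟩ | ⟨e, -⟩
  · exact HV.vx.inj e
  · cases e

theorem mem_T {x y : X} {e : Sym2 (HV X W)} : e ∈ h.T x y ↔ ∃ e' ∈ h.E, Sym2.map (h.io x y) e' = e := by
  rw [T, im, mem_image]

theorem vert_T {x y : X} {e : Sym2 (HV X W)} (he : e ∈ h.T x y) {v : HV X W} (hv : v ∈ e) :
    v = hub ∨ v = vx x ∨ v = vx y ∨ ∃ u, v = prv x y u := by
  rw [mem_T] at he
  obtain ⟨e', -, rfl⟩ := he
  rw [Sym2.mem_map] at hv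
  obtain ⟨u, -, rfl⟩ := hv
  rcases h.io_cases x y u with ⟨_, e1⟩ | ⟨_, e1⟩ | ⟨_, e1⟩ | ⟨_, _, _, e1⟩
  · exact .inl e1
  · exact .inr (.inl e1)
  · exact .inr (.inr (.inl e1))
  · exact .inr (.inr (.inr ⟨u, e1⟩))

theorem Pr_char {x y : X} {e : Sym2 (HV X W)} (he : e ∈ h.Pr x y) :
    (∃ u, prv x y u ∈ e) ∨ e = s(vx x, vx y) := by
  rw [Pr, mem_sdiff, mem_T] at he
  obtain ⟨⟨e', he', rfl⟩, hne⟩ := he
  induction e' using Sym2.ind with
  | _ u w =>
  rw [Sym2.map_mk] at hne ⊢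
  have huw : u ≠ w := fun e => h.nd _ he' (by rw [e]; exact Sym2.diag_isDiag _)
  simp only [mem_insert, mem_singleton, not_or, ch] at hne
  rcases h.io_cases x y u with ⟨rfl, e1⟩ | ⟨rfl, e1⟩ | ⟨rfl, e1⟩ | ⟨_, _, _, e1⟩
  · rcases h.io_cases x y w with ⟨rfl, e2⟩ | ⟨rfl, e2⟩ | ⟨rfl, e2⟩ | ⟨_, _, _, e2⟩
    · exact absurd rfl huw
    · exact absurd (by rw [e1, e2]) hne.1
    · exact absurd (by rw [e1, e2]) hne.2
    · exact .inl ⟨w, by rw [e2]; exact Sym2.mem_mk_right _ _⟩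
  · rcases h.io_cases x y w with ⟨rfl, e2⟩ | ⟨rfl, e2⟩ | ⟨rfl, e2⟩ | ⟨_, _, _, e2⟩
    · exact absurd (by rw [e1, e2, Sym2.eq_swap]) hne.1
    · exact absurd rfl huw
    · exact .inr (by rw [e1, e2])
    · exact .inl ⟨w, by rw [e2]; exact Sym2.mem_mk_right _ _⟩
  · rcases h.io_cases x y w with ⟨rfl, e2⟩ | ⟨rfl, e2⟩ | ⟨rfl, e2⟩ | ⟨_, _, _, e2⟩
    · exact absurd (by rw [e1, e2, Sym2.eq_swap]) hne.2
    · exact .inr (by rw [e1, e2, Sym2.eq_swap])
    · exact absurd rfl huw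
    · exact .inl ⟨w, by rw [e2]; exact Sym2.mem_mk_right _ _⟩
  · exact .inl ⟨u, by rw [e1]; exact Sym2.mem_mk_left _ _⟩

theorem Pr_not_ch {x y z : X} (he : ch W z ∈ h.Pr x y) : False := by
  rcases h.Pr_char he with ⟨u, hu⟩ | he
  · unfold ch at hu
    rw [Sym2.mem_iff] at hu
    rcases hu with e | e <;> cases e
  · unfold ch at he
    rw [Sym2.eq_iff] at he
    rcases he with ⟨e, -⟩ | ⟨e, -⟩ <;> cases e

theorem Pr_uniq {x y x' y' : X} (hA : h.A x y) (hA' : h.A x' y') {e : Sym2 (HV X W)}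
    (he : e ∈ h.Pr x y) (he' : e ∈ h.T x' y') : x' = x ∧ y' = y := by
  rcases h.Pr_char he with ⟨u, hu⟩ | rfl
  · rcases h.vert_T he' hu with e | e | e | ⟨w, e⟩
    · cases e
    · cases e
    · cases e
    · cases e
      exact ⟨rfl, rfl⟩
  · have hxy := h.ne_of hA
    have h1 := h.vert_T he' (Sym2.mem_mk_left _ _)
    have h2 := h.vert_T he' (Sym2.mem_mk_right _ _)
    have h1' : x = x' ∨ x = y' := by
      rcases h1 with e | e | e | ⟨w, e⟩
      · cases e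
      · cases e; exact .inl rfl
      · cases e; exact .inr rfl
      · cases e
    have h2' : y = x' ∨ y = y' := by
      rcases h2 with e | e | e | ⟨w, e⟩
      · cases e
      · cases e; exact .inl rfl
      · cases e; exact .inr rfl
      · cases e
    rcases h1' with rfl | rfl
    · rcases h2' with e | e
      · exact absurd e.symm hxy
      · exact ⟨rfl, e.symm⟩
    · rcases h2' with rfl | rfl
      · exact absurd hA' (h.asy _ _ hA)
      · exact absurd rfl hxy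

theorem Gs_cases {e : Sym2 (HV X W)} (he : e ∈ h.Gs) : (∃ x, e = ch W x) ∨
    ∃ x y, h.A x y ∧ e ∈ h.Pr x y := by
  rcases he with he | ⟨x, y, hA, he⟩
  · exact .inl he
  · by_cases h1 : e = ch W x
    · exact .inl ⟨x, h1⟩
    · by_cases h2 : e = ch W y
      · exact .inl ⟨y, h2⟩
      · refine .inr ⟨x, y, hA, ?_⟩
        rw [Pr, mem_sdiff]
        simp [he, h1, h2]

theorem Pr_T {x y : X} {e : Sym2 (HV X W)} (he : e ∈ h.Pr x y) : e ∈ h.T x y :=
  (mem_sdiff.1 he).1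

theorem T_nd {x y : X} (hxy : x ≠ y) {e : Sym2 (HV X W)} (he : e ∈ h.T x y) : ¬ e.IsDiag := by
  rw [mem_T] at he
  obtain ⟨e', he', rfl⟩ := he
  induction e' using Sym2.ind with
  | _ u w =>
  rw [Sym2.map_mk, Sym2.mk_isDiag_iff]
  intro e
  exact h.nd _ he' (by rw [h.io_inj hxy e]; exact Sym2.diag_isDiag _)

theorem Gs_nd {e : Sym2 (HV X W)} (he : e ∈ h.Gs) : ¬ e.IsDiag := by
  rcases he with ⟨x, rfl⟩ | ⟨x, y, hA, he⟩
  · unfold ch
    rw [Sym2.mk_isDiag_iff]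
    intro e
    cases e
  · exact h.T_nd (h.ne_of hA) he

/-- the gadgets used by a finite edge set -/
theorem exists_Q (J : Finset (Sym2 (HV X W))) : ∃ Q : Finset (X × X), Q.card ≤ J.card ∧
    (∀ r ∈ Q, h.A r.1 r.2) ∧ ∀ x y, h.A x y → ∀ e ∈ J, e ∈ h.Pr x y → (x, y) ∈ Q := by
  by_cases hne : ∃ r : X × X, h.A r.1 r.2
  · obtain ⟨r0, hr0⟩ := hne
    have : ∀ e : Sym2 (HV X W), ∃ r : X × X, h.A r.1 r.2 ∧
        ∀ x y, h.A x y → e ∈ h.Pr x y → (x, y) = r := by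
      intro e
      by_cases he : ∃ x y, h.A x y ∧ e ∈ h.Pr x y
      · obtain ⟨x, y, hA, he⟩ := he
        refine ⟨(x, y), hA, fun x' y' hA' he' => ?_⟩
        obtain ⟨rfl, rfl⟩ := h.Pr_uniq hA hA' he (h.Pr_T he')
        rfl
      · exact ⟨r0, hr0, fun x y hA hexy => absurd ⟨x, y, hA, hexy⟩ he⟩
    choose own h1 h2 using this
    refine ⟨J.image own, card_image_le, ?_, ?_⟩
    · intro r hr
      rw [mem_image] at hr
      obtain ⟨e, -, rfl⟩ := hr
      exact h1 e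
    · intro x y hA e he hexy
      rw [h2 e x y hA hexy]
      exact mem_image_of_mem _ he
  · refine ⟨∅, by simp, by simp, fun x y hA => absurd ⟨(x, y), hA⟩ hne⟩

/-- the 2-separations at a gadget -/
structure Split (J JT JX JY : Finset (Sym2 (HV X W))) (x y : X) : Prop where
  un : J = JT ∪ (JX ∪ JY)
  dTX : Disjoint JT JX
  dTY : Disjoint JT JY
  dXY : Disjoint JX JY
  T : ∀ e, e ∈ JT ↔ e ∈ J ∧ e ∈ h.T x y
  vTX : ∀ v, (∃ e ∈ JT, v ∈ e) → (∃ e ∈ JX, v ∈ e) → v = hub ∨ v = vx x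
  vTY : ∀ v, (∃ e ∈ JT, v ∈ e) → (∃ e ∈ JY, v ∈ e) → v = hub ∨ v = vx y
  vXY : ∀ v, (∃ e ∈ JX, v ∈ e) → (∃ e ∈ JY, v ∈ e) → v = hub
  nYx : ∀ e ∈ JY, vx x ∉ e
  nXy : ∀ e ∈ JX, vx y ∉ e

theorem exists_split {J : Finset (Sym2 (HV X W))} (hJ : ∀ e ∈ J, e ∈ h.Gs) (hc : J.card ≤ h.n)
    {x y : X} (hA : h.A x y) (hne : ∃ e ∈ J, e ∈ h.Pr x y) :
    ∃ JT JX JY, h.Split J JT JX JY x y := by
  obtain ⟨Q, hQc, hQA, hQ⟩ := h.exists_Q J
  obtain ⟨e0, he0, he0'⟩ := hne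
  obtain ⟨P, hxP, hyP, hP⟩ := h.acyc Q hQA (hQc.trans hc) (x, y) (hQ x y hA e0 he0 he0')
  simp only at hxP hyP
  set sX : Sym2 (HV X W) → Prop := fun e => (∃ u ∈ P, e = ch W u) ∨
    (∃ u v, u ∈ P ∧ v ∈ P ∧ e ∈ h.Pr u v) with hsX
  have hchT : ∀ u, ch W u ∈ h.T x y → u = x ∨ u = y := by
    intro u hu
    rcases h.vert_T hu (Sym2.mem_mk_right _ _) with e | e | e | ⟨w, e⟩
    · cases e
    · cases e; exact .inl rfl
    · cases e; exact .inr rfl
    · cases e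
  have hV : ∀ u v e, e ∈ h.Pr u v → ∀ z ∈ e, z = hub ∨ z = vx u ∨ z = vx v ∨ ∃ w, z = prv u v w :=
    fun u v e he z hz => h.vert_T (h.Pr_T he) hz
  -- vertices of the three parts
  have hVT : ∀ z, (∃ e ∈ J.filter (· ∈ h.T x y), z ∈ e) →
      z = hub ∨ z = vx x ∨ z = vx y ∨ ∃ w, z = prv x y w := by
    rintro z ⟨e, he, hz⟩
    exact h.vert_T (mem_filter.1 he).2 hz
  have hVX : ∀ z, (∃ e ∈ J.filter (fun e => e ∉ h.T x y ∧ sX e), z ∈ e) →
      z = hub ∨ (∃ u ∈ P, z = vx u) ∨ ∃ u ∈ P, ∃ v ∈ P, ∃ w, z = prv u v w := by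
    rintro z ⟨e, he, hz⟩
    obtain ⟨-, -, he⟩ := mem_filter.1 he
    rcases he with ⟨u, hu, rfl⟩ | ⟨u, v, hu, hv, he⟩
    · unfold ch at hz
      rw [Sym2.mem_iff] at hz
      rcases hz with rfl | rfl
      · exact .inl rfl
      · exact .inr (.inl ⟨u, hu, rfl⟩)
    · rcases hV u v e he z hz with hz | hz | hz | ⟨w, hz⟩
      · exact .inl hz
      · exact .inr (.inl ⟨u, hu, hz⟩)
      · exact .inr (.inl ⟨v, hv, hz⟩)
      · exact .inr (.inr ⟨u, hu, v, hv, w, hz⟩)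
  have hVY : ∀ z, (∃ e ∈ J.filter (fun e => e ∉ h.T x y ∧ ¬ sX e), z ∈ e) →
      z = hub ∨ (∃ u, u ∉ P ∧ z = vx u) ∨ ∃ u, u ∉ P ∧ ∃ v w, z = prv u v w := by
    rintro z ⟨e, he, hz⟩
    obtain ⟨heJ, heT, he⟩ := mem_filter.1 he
    rcases h.Gs_cases (hJ e heJ) with ⟨u, rfl⟩ | ⟨u, v, hAuv, he'⟩
    · have hu : u ∉ P := fun hu => he (.inl ⟨u, hu, rfl⟩)
      unfold ch at hz
      rw [Sym2.mem_iff] at hz
      rcases hz with rfl | rfl
      · exact .inl rfl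
      · exact .inr (.inl ⟨u, hu, rfl⟩)
    · have huv := hP (u, v) (hQ u v hAuv e heJ he') (by
        intro e1
        obtain ⟨rfl, rfl⟩ := Prod.mk.inj e1
        exact heT (h.Pr_T he'))
      simp only at huv
      have hu : u ∉ P := fun hu => he (.inr ⟨u, v, hu, huv.1 hu, he'⟩)
      have hv : v ∉ P := fun hv => hu (huv.2 hv)
      rcases hV u v e he' z hz with hz | hz | hz | ⟨w, hz⟩
      · exact .inl hz
      · exact .inr (.inl ⟨u, hu, hz⟩)
      · exact .inr (.inl ⟨v, hv, hz⟩)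
      · exact .inr (.inr ⟨u, hu, v, w, hz⟩)
  refine ⟨J.filter (· ∈ h.T x y), J.filter (fun e => e ∉ h.T x y ∧ sX e),
    J.filter (fun e => e ∉ h.T x y ∧ ¬ sX e), ?_, ?_, ?_, ?_, ?_, ?_, ?_, ?_, ?_, ?_⟩
  · ext e
    simp only [mem_union, mem_filter]
    by_cases h1 : e ∈ h.T x y <;> by_cases h2 : sX e <;> simp [h1, h2]
  · rw [disjoint_left]
    intro e h1 h2
    exact (mem_filter.1 h2).2.1 (mem_filter.1 h1).2
  · rw [disjoint_left]
    intro e h1 h2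
    exact (mem_filter.1 h2).2.1 (mem_filter.1 h1).2
  · rw [disjoint_left]
    intro e h1 h2
    exact (mem_filter.1 h2).2.2 (mem_filter.1 h1).2.2
  · intro e
    rw [mem_filter]
  · intro v h1 h2
    rcases hVT v h1 with e1 | e1 | e1 | ⟨w, e1⟩
    · exact .inl e1
    · exact .inr e1
    · exfalso
      rcases hVX v h2 with e2 | ⟨u, hu, e2⟩ | ⟨u, hu, v', hv', w, e2⟩
      · rw [e1] at e2; cases e2
      · rw [e1] at e2; cases e2; exact hyP hu
      · rw [e1] at e2; cases e2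
    · exfalso
      rcases hVX v h2 with e2 | ⟨u, hu, e2⟩ | ⟨u, hu, v', hv', w, e2⟩
      · rw [e1] at e2; cases e2
      · rw [e1] at e2; cases e2
      · rw [e1] at e2; cases e2; exact hyP hv'
  · intro v h1 h2
    rcases hVT v h1 with e1 | e1 | e1 | ⟨w, e1⟩
    · exact .inl e1
    · exfalso
      rcases hVY v h2 with e2 | ⟨u, hu, e2⟩ | ⟨u, hu, v', w, e2⟩
      · rw [e1] at e2; cases e2
      · rw [e1] at e2; cases e2; exact hu hxP
      · rw [e1] at e2; cases e2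
    · exact .inr e1
    · exfalso
      rcases hVY v h2 with e2 | ⟨u, hu, e2⟩ | ⟨u, hu, v', w, e2⟩
      · rw [e1] at e2; cases e2
      · rw [e1] at e2; cases e2
      · rw [e1] at e2; cases e2; exact hu hxP
  · intro v h1 h2
    rcases hVX v h1 with e1 | ⟨u, hu, e1⟩ | ⟨u, hu, v', hv', w, e1⟩
    · exact e1
    · exfalso
      rcases hVY v h2 with e2 | ⟨u', hu', e2⟩ | ⟨u', hu', v', w, e2⟩
      · rw [e1] at e2; cases e2
      · rw [e1] at e2; cases e2; exact hu' hu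
      · rw [e1] at e2; cases e2
    · exfalso
      rcases hVY v h2 with e2 | ⟨u', hu', e2⟩ | ⟨u', hu', v', w, e2⟩
      · rw [e1] at e2; cases e2
      · rw [e1] at e2; cases e2
      · rw [e1] at e2; cases e2; exact hu' hu
  · intro e he hv
    rcases hVY _ ⟨e, he, hv⟩ with e2 | ⟨u', hu', e2⟩ | ⟨u', hu', v', w, e2⟩
    · cases e2
    · cases e2; exact hu' hxP
    · cases e2
  · intro e he hv
    rcases hVX _ ⟨e, he, hv⟩ with e2 | ⟨u', hu', e2⟩ | ⟨u', hu', v', hv', w, e2⟩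
    · cases e2
    · cases e2; exact hyP hu'
    · cases e2

end Dat

end Pool.Agent.H165R2.SM
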