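import Pool.Agent.H165R2.SM5

/-!
# Every copy in the hub host is a gadget
-/

open Finset
open scoped Classical symmDiff

namespace Pool.Agent.H165R2.SM

open HV

/-- the edge `ab` of `E` separates `E` -/
def Sep {W : Type} (E : Finset (Sym2 W)) (a b : W) : Prop :=
  ∃ A B : Finset (Sym2 W), A.Nonempty ∧ B.Nonempty ∧ Disjoint A B ∧ A ∪ B = E.erase s(a, b) ∧
    ∀ v, (∃ e ∈ A, v ∈ e) → (∃ e ∈ B, v ∈ e) → v = a ∨ v = b

/-- any two edges lie on a common circuit, and separating edges lie on even sets shorter than all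
even sets through the edges `v0 p`, `v0 q` -/
structure Good {W : Type} (E : Finset (Sym2 W)) (v0 p q : W) : Prop where
  cc : ∀ e ∈ E, ∀ g ∈ E, Rl E e g
  sep : ∀ a b, s(a, b) ∈ E → Sep E a b → ∃ Z ⊆ E, Ev Z ∧ s(a, b) ∈ Z ∧
    ∀ Z' ⊆ E, Ev Z' → (s(v0, p) ∈ Z' ∨ s(v0, q) ∈ Z') → Z.card < Z'.card

namespace Dat

variable {X W : Type} (h : Dat X W)

theorem ch_mem (x : X) {v : HV X W} : v ∈ ch W x ↔ v = hub ∨ v = vx x := by
  unfold ch
  rw [Sym2.mem_iff]

theorem side {Z R B : Finset (Sym2 (HV X W))} {x : X} (hC : Circ Z) (hG : ∀ e ∈ Z, e ∈ h.Gs)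
    (hun : Z = R ∪ B) (hd : Disjoint R B)
    (hv : ∀ v, (∃ e ∈ R, v ∈ e) → (∃ e ∈ B, v ∈ e) → v = hub ∨ v = vx x)
    (hB : B.Nonempty) (hR : ∃ g ∈ R, g ≠ ch W x) (hx : ch W x ∈ Z → ch W x ∈ R) :
    ch W x ∉ Z ∧ (Circ (insert (ch W x) B) ∧ (insert (ch W x) B).card < Z.card) ∧
      (Circ (insert (ch W x) R) ∧ (insert (ch W x) R).card < Z.card) := by
  obtain ⟨g, hgR, hg⟩ := hR
  have hst : (hub : HV X W) ≠ vx x := by intro e; cases e
  have hnx : ch W x ∉ Z := by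
    intro hxZ
    have hxR := hx hxZ
    refine hC.no_cross (A := R.erase (ch W x)) (B := B) hst (fun e he => h.Gs_nd (hG e he)) ?_ ?_ ?_
      ⟨g, mem_erase.2 ⟨hg, hgR⟩⟩ hB ?_ ?_
    · rintro v ⟨e, he, hve⟩ h2
      exact hv v ⟨e, (mem_erase.1 he).2, hve⟩ h2
    · exact disjoint_of_subset_left (erase_subset _ _) hd
    · rw [hun]
      change R ∪ B = insert (ch W x) (R.erase (ch W x) ∪ B)
      rw [← insert_union, insert_erase hxR]
    · exact notMem_erase _ _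
    · exact disjoint_left.1 hd hxR
  refine ⟨hnx, ?_, ?_⟩
  · exact hC.proj (A := B) (B := R) hst (fun e he => h.Gs_nd (hG e he)) (fun v h1 h2 => hv v h2 h1)
      hd.symm (by rw [hun, union_comm]) hB ⟨g, hgR⟩ hnx
  · exact hC.proj (A := R) (B := B) hst (fun e he => h.Gs_nd (hG e he)) hv
      hd hun ⟨g, hgR⟩ hB hnx

/-- there is another edge at every vertex of an even set -/
theorem Ev_other {V : Type*} {Z : Finset (Sym2 V)} (hZ : Ev Z) {e : Sym2 V} (he : e ∈ Z) {v : V}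
    (hv : v ∈ e) : ∃ g ∈ Z, g ≠ e ∧ v ∈ g := by
  by_contra hcon
  push Not at hcon
  have : Z.filter (fun g => v ∈ g) = {e} := by
    ext g
    rw [mem_filter, mem_singleton]
    constructor
    · rintro ⟨h1, h2⟩
      by_contra h3
      exact hcon g h1 h3 h2
    · rintro rfl
      exact ⟨he, hv⟩
  have h2 := hZ v
  rw [dg, this] at h2
  simp at h2

theorem exists_private {Z : Finset (Sym2 (HV X W))} (hZ : Ev Z) (hG : ∀ e ∈ Z, e ∈ h.Gs) {u : X}
    (hu : ch W u ∈ Z) : ∃ x y, h.A x y ∧ (u = x ∨ u = y) ∧ ∃ g ∈ Z, g ∈ h.Pr x y := by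
  obtain ⟨g, hg, hne, hv⟩ := Ev_other hZ hu (v := vx u) ((ch_mem u).2 (.inr rfl))
  rcases h.Gs_cases (hG g hg) with ⟨u', rfl⟩ | ⟨x, y, hA, hP⟩
  · rw [ch_mem] at hv
    rcases hv with e | e
    · cases e
    · cases e; exact absurd rfl hne
  · refine ⟨x, y, hA, ?_, g, hg, hP⟩
    rcases h.vert_T (h.Pr_T hP) hv with e | e | e | ⟨w, e⟩
    · cases e
    · cases e; exact .inl rfl
    · cases e; exact .inr rfl
    · cases e

theorem chCirc (m : ℕ) : ∀ Z : Finset (Sym2 (HV X W)), Z.card = m → Circ Z →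
    (∀ e ∈ Z, e ∈ h.Gs) → Z.card ≤ h.n → (∃ u, ch W u ∈ Z) →
    ∃ x y, h.A x y ∧ ∃ Z' ⊆ h.T x y, Ev Z' ∧ (ch W x ∈ Z' ∨ ch W y ∈ Z') ∧ Z'.card ≤ Z.card := by
  induction m using Nat.strong_induction_on with
  | _ m ih =>
  intro Z hm hC hG hn ⟨u, hu⟩
  obtain ⟨x, y, hA, -, g, hg, hgP⟩ := h.exists_private hC.2.1 hG hu
  obtain ⟨ZT, ZX, ZY, hs⟩ := h.exists_split hG hn hA ⟨g, hg, hgP⟩
  have hgT : g ∈ ZT := (hs.T g).2 ⟨hg, h.Pr_T hgP⟩
  have hsubX : ZX ⊆ Z := by
    rw [hs.un]; exact subset_union_left.trans subset_union_right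
  have hsubY : ZY ⊆ Z := by
    rw [hs.un]; exact subset_union_right.trans subset_union_right
  by_cases hX : ZX.Nonempty
  · obtain ⟨-, ⟨hC', hlt⟩, -⟩ := h.side (R := ZT ∪ ZY) (B := ZX) (x := x) hC hG
      (by rw [hs.un, union_comm ZX, union_assoc])
      (disjoint_union_left.2 ⟨hs.dTX, hs.dXY.symm⟩)
      (by
        rintro v ⟨e, he, hve⟩ h2
        rcases mem_union.1 he with he | he
        · exact hs.vTX v ⟨e, he, hve⟩ h2
        · exact .inl (hs.vXY v h2 ⟨e, he, hve⟩))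
      hX ⟨g, mem_union_left _ hgT, fun e => h.Pr_not_ch (e ▸ hgP)⟩
      (fun hx => mem_union_left _ ((hs.T _).2 ⟨hx, h.ch_T1 x y⟩))
    obtain ⟨x', y', hA', Z', h1, h2, h3, h4⟩ := ih _ (by omega) (insert (ch W x) ZX) rfl hC'
      (by
        intro e he
        rcases mem_insert.1 he with rfl | he
        · exact .inl ⟨x, rfl⟩
        · exact hG e (hsubX he)) (by omega) ⟨x, mem_insert_self _ _⟩
    exact ⟨x', y', hA', Z', h1, h2, h3, by omega⟩
  · by_cases hY : ZY.Nonempty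
    · obtain ⟨-, ⟨hC', hlt⟩, -⟩ := h.side (R := ZT ∪ ZX) (B := ZY) (x := y) hC hG
        (by rw [hs.un, union_assoc])
        (disjoint_union_left.2 ⟨hs.dTY, hs.dXY⟩)
        (by
          rintro v ⟨e, he, hve⟩ h2
          rcases mem_union.1 he with he | he
          · exact hs.vTY v ⟨e, he, hve⟩ h2
          · exact .inl (hs.vXY v ⟨e, he, hve⟩ h2))
        hY ⟨g, mem_union_left _ hgT, fun e => h.Pr_not_ch (e ▸ hgP)⟩
        (fun hx => mem_union_left _ ((hs.T _).2 ⟨hx, h.ch_T2 x y⟩))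
      obtain ⟨x', y', hA', Z', h1, h2, h3, h4⟩ := ih _ (by omega) (insert (ch W y) ZY) rfl hC'
        (by
          intro e he
          rcases mem_insert.1 he with rfl | he
          · exact .inl ⟨y, rfl⟩
          · exact hG e (hsubY he)) (by omega) ⟨y, mem_insert_self _ _⟩
      exact ⟨x', y', hA', Z', h1, h2, h3, by omega⟩
    · rw [not_nonempty_iff_eq_empty] at hX hY
      have hZT : Z = ZT := by rw [hs.un, hX, hY]; simp
      refine ⟨x, y, hA, Z, ?_, hC.2.1, ?_, le_rfl⟩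
      · intro e he
        rw [hZT] at he
        exact ((hs.T e).1 he).2
      · have := hu
        rw [hZT] at this
        rcases h.vert_T ((hs.T _).1 this).2 ((ch_mem u).2 (.inr rfl)) with e | e | e | ⟨w, e⟩
        · cases e
        · cases e; exact .inl hu
        · cases e; exact .inr hu
        · cases e

variable (hc : h.E.card ≤ h.n) (hgood : Good h.E h.v0 h.p h.q)
include hc hgood

/-- a choice edge of a copy is not separating -/
theorem no_sep_ch {f : W → HV X W} (hf : Function.Injective f)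
    (hJ : ∀ e ∈ im f h.E, e ∈ h.Gs) {x : X} (hx : ch W x ∈ im f h.E)
    {R B : Finset (Sym2 (HV X W))} (hun : im f h.E = R ∪ B) (hd : Disjoint R B)
    (hv : ∀ v, (∃ e ∈ R, v ∈ e) → (∃ e ∈ B, v ∈ e) → v = hub ∨ v = vx x)
    (hB : B.Nonempty) (hR : ∃ g ∈ R, g ≠ ch W x) (hxR : ch W x ∈ R) : False := by
  have hx' := hx
  rw [im, mem_image] at hx'
  obtain ⟨e', he', hee⟩ := hx'
  induction e' using Sym2.ind with
  | _ a b =>
  obtain ⟨g, hgR, hg⟩ := hR
  have hab : ∀ v, f v = hub ∨ f v = vx x → v = a ∨ v = b := by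
    intro v hfv
    rw [Sym2.map_mk, ch, Sym2.eq_iff] at hee
    rcases hee with ⟨e1, e2⟩ | ⟨e1, e2⟩
    · rcases hfv with e | e
      · exact .inl (hf (e.trans e1.symm))
      · exact .inr (hf (e.trans e2.symm))
    · rcases hfv with e | e
      · exact .inr (hf (e.trans e2.symm))
      · exact .inl (hf (e.trans e1.symm))
  have hsep : Sep h.E a b := by
    refine ⟨h.E.filter (fun e => Sym2.map f e ∈ R.erase (ch W x)),
      h.E.filter (fun e => Sym2.map f e ∈ B), ?_, ?_, ?_, ?_, ?_⟩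
    · have : g ∈ im f h.E := by rw [hun]; exact mem_union_left _ hgR
      rw [im, mem_image] at this
      obtain ⟨e1, he1, rfl⟩ := this
      exact ⟨e1, mem_filter.2 ⟨he1, mem_erase.2 ⟨hg, hgR⟩⟩⟩
    · obtain ⟨g', hg'⟩ := hB
      have : g' ∈ im f h.E := by rw [hun]; exact mem_union_right _ hg'
      rw [im, mem_image] at this
      obtain ⟨e1, he1, rfl⟩ := this
      exact ⟨e1, mem_filter.2 ⟨he1, hg'⟩⟩
    · rw [disjoint_left]
      intro e h1 h2
      rw [mem_filter, mem_erase] at h1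
      exact disjoint_left.1 hd h1.2.2 (mem_filter.1 h2).2
    · ext e
      simp only [mem_union, mem_filter, mem_erase]
      constructor
      · rintro (⟨h1, h2, h3⟩ | ⟨h1, h2⟩)
        · refine ⟨?_, h1⟩
          rintro rfl
          exact h2 hee
        · refine ⟨?_, h1⟩
          rintro rfl
          rw [hee] at h2
          exact disjoint_left.1 hd hxR h2
      · rintro ⟨h1, h2⟩
        have h3 : Sym2.map f e ∈ R ∪ B := by rw [← hun]; exact mem_image_of_mem _ h2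
        rcases mem_union.1 h3 with h4 | h4
        · refine .inl ⟨h2, ?_, h4⟩
          intro h5
          rw [← hee] at h5
          exact h1 (Sym2.map.injective hf h5)
        · exact .inr ⟨h2, h4⟩
    · rintro v ⟨e1, he1, hv1⟩ ⟨e2, he2, hv2⟩
      rw [mem_filter, mem_erase] at he1
      rw [mem_filter] at he2
      apply hab
      exact hv (f v) ⟨_, he1.2.2, Sym2.mem_map.2 ⟨v, hv1, rfl⟩⟩
        ⟨_, he2.2, Sym2.mem_map.2 ⟨v, hv2, rfl⟩⟩
  obtain ⟨Z, hZE, hZ, habZ, hZmin⟩ := hgood.sep a b he' hsep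
  have h1 : ch W x ∈ im f Z := by
    rw [← hee]; exact mem_image_of_mem _ habZ
  have hsub : im f Z ⊆ im f h.E := image_subset_image hZE
  obtain ⟨C, hCZ, hC, hxC⟩ := exists_circ ((Ev_im hf).2 hZ) h1
  have hCc : C.card ≤ Z.card := (card_le_card hCZ).trans (card_im hf Z).le
  have hZc : Z.card ≤ h.E.card := card_le_card hZE
  obtain ⟨x', y', hA', Z', hZ'T, hZ'E, hZ'c, hZ'card⟩ := h.chCirc C.card C rfl hC
    (fun e he => hJ e (hsub (hCZ he))) (by omega) ⟨x, hxC⟩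
  obtain ⟨Z3, hZ3, rfl⟩ := subset_image_iff.1 hZ'T
  have hio := h.io_inj (h.ne_of hA')
  have h2 := hZmin Z3 hZ3 ((Ev_im hio).1 hZ'E) (by
    rcases hZ'c with hh | hh
    · left
      rw [mem_image] at hh
      obtain ⟨e3, he3, hh⟩ := hh
      have : Sym2.map (h.io x' y') s(h.v0, h.p) = ch W x' := by
        rw [Sym2.map_mk, h.io_v0, h.io_p]; rfl
      rw [← this] at hh
      rwa [← Sym2.map.injective hio hh]
    · right
      rw [mem_image] at hh
      obtain ⟨e3, he3, hh⟩ := hh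
      have : Sym2.map (h.io x' y') s(h.v0, h.q) = ch W y' := by
        rw [Sym2.map_mk, h.io_v0, h.io_q]; rfl
      rw [← this] at hh
      rwa [← Sym2.map.injective hio hh])
  have h3 := card_im hio Z3
  rw [im] at h3
  omega

/-- projection of the circuits of a copy to a gadget -/
theorem projT {f : W → HV X W} (hf : Function.Injective f)
    (hJ : ∀ e ∈ im f h.E, e ∈ h.Gs) {x y : X} (hA : h.A x y)
    (hg : ∃ g ∈ im f h.E, g ∈ h.Pr x y) {e : Sym2 (HV X W)} (heT : e ∈ h.T x y)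
    {Z : Finset (Sym2 (HV X W))} (hZJ : Z ⊆ im f h.E) (hC : Circ Z) (heZ : e ∈ Z)
    (hZT : ¬ Z ⊆ h.T x y) :
    ∃ Z' ⊆ h.T x y, Circ Z' ∧ e ∈ Z' ∧ Z'.card < Z.card ∧ ¬ Z' ⊆ im f h.E := by
  set J := im f h.E with hJdef
  obtain ⟨g, hgJ, hgP⟩ := hg
  obtain ⟨JT, JX, JY, hs⟩ := h.exists_split hJ (by rw [hJdef, card_im hf]; exact hc) hA
    ⟨g, hgJ, hgP⟩
  have hgT : g ∈ JT := (hs.T g).2 ⟨hgJ, h.Pr_T hgP⟩
  -- choice edges
  have hnx : JX.Nonempty → ch W x ∉ J := by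
    intro hX hx
    refine h.no_sep_ch hc hgood hf hJ hx (R := JT ∪ JY) (B := JX) ?_ ?_ ?_ hX ?_ ?_
    · rw [← hJdef, hs.un, union_comm JX, union_assoc]
    · exact disjoint_union_left.2 ⟨hs.dTX, hs.dXY.symm⟩
    · rintro v ⟨e, he, hve⟩ h2
      rcases mem_union.1 he with he | he
      · exact hs.vTX v ⟨e, he, hve⟩ h2
      · exact .inl (hs.vXY v h2 ⟨e, he, hve⟩)
    · exact ⟨g, mem_union_left _ hgT, fun e => h.Pr_not_ch (e ▸ hgP)⟩
    · exact mem_union_left _ ((hs.T _).2 ⟨hx, h.ch_T1 x y⟩)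
  have hny : JY.Nonempty → ch W y ∉ J := by
    intro hX hx
    refine h.no_sep_ch hc hgood hf hJ hx (R := JT ∪ JX) (B := JY) ?_ ?_ ?_ hX ?_ ?_
    · rw [← hJdef, hs.un, union_assoc]
    · exact disjoint_union_left.2 ⟨hs.dTY, hs.dXY⟩
    · rintro v ⟨e, he, hve⟩ h2
      rcases mem_union.1 he with he | he
      · exact hs.vTY v ⟨e, he, hve⟩ h2
      · exact .inl (hs.vXY v ⟨e, he, hve⟩ h2)
    · exact ⟨g, mem_union_left _ hgT, fun e => h.Pr_not_ch (e ▸ hgP)⟩
    · exact mem_union_left _ ((hs.T _).2 ⟨hx, h.ch_T2 x y⟩)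
  have hZG : ∀ e ∈ Z, e ∈ h.Gs := fun e he => hJ e (hZJ he)
  have heJT : e ∈ Z ∩ JT := mem_inter.2 ⟨heZ, (hs.T e).2 ⟨hZJ heZ, heT⟩⟩
  have hZun : Z = (Z ∩ JT) ∪ ((Z ∩ JX) ∪ (Z ∩ JY)) := by
    rw [← inter_union_distrib_left, ← inter_union_distrib_left, ← hs.un, inter_eq_left.2 hZJ]
  -- first step
  obtain ⟨R1, hR1T, heR1, hR1d, hR1v, hC1, hcard1, hX1⟩ : ∃ R1 ⊆ h.T x y, e ∈ R1 ∧
      Disjoint R1 (Z ∩ JY) ∧
      (∀ v, (∃ e ∈ R1, v ∈ e) → (∃ e ∈ Z ∩ JY, v ∈ e) → v = hub ∨ v = vx y) ∧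
      Circ (R1 ∪ (Z ∩ JY)) ∧ (R1 ∪ (Z ∩ JY)).card ≤ Z.card ∧
      ((Z ∩ JX).Nonempty → ch W x ∈ R1 ∧ ch W x ∉ J ∧ (R1 ∪ (Z ∩ JY)).card < Z.card) := by
    have hZJT : Z ∩ JT ⊆ h.T x y := by
      intro e he
      exact ((hs.T e).1 (mem_inter.1 he).2).2
    have hv0 : ∀ v, (∃ e ∈ Z ∩ JT, v ∈ e) → (∃ e ∈ Z ∩ JY, v ∈ e) → v = hub ∨ v = vx y := by
      rintro v ⟨e1, he1, hv1⟩ ⟨e2, he2, hv2⟩
      exact hs.vTY v ⟨e1, (mem_inter.1 he1).2, hv1⟩ ⟨e2, (mem_inter.1 he2).2, hv2⟩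
    have hd0 : Disjoint (Z ∩ JT) (Z ∩ JY) :=
      disjoint_of_subset_left inter_subset_right (disjoint_of_subset_right inter_subset_right hs.dTY)
    by_cases hX : (Z ∩ JX).Nonempty
    · have hX' : JX.Nonempty := hX.mono inter_subset_right
      have hxJ := hnx hX'
      have heq : Z = (Z ∩ JT ∪ Z ∩ JY) ∪ Z ∩ JX := by
        conv_lhs => rw [hZun]
        rw [union_comm (Z ∩ JX), union_assoc]
      obtain ⟨-, -, h1, h2⟩ := h.side (R := Z ∩ JT ∪ Z ∩ JY) (B := Z ∩ JX) (x := x) hC hZG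
        heq
        (disjoint_union_left.2 ⟨
          disjoint_of_subset_left inter_subset_right (disjoint_of_subset_right inter_subset_right
            hs.dTX),
          disjoint_of_subset_left inter_subset_right (disjoint_of_subset_right inter_subset_right
            hs.dXY.symm)⟩)
        (by
          rintro v ⟨e1, he1, hv1⟩ ⟨e2, he2, hv2⟩
          have he2' := (mem_inter.1 he2).2
          rcases mem_union.1 he1 with he1 | he1
          · exact hs.vTX v ⟨e1, (mem_inter.1 he1).2, hv1⟩ ⟨e2, he2', hv2⟩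
          · exact .inl (hs.vXY v ⟨e2, he2', hv2⟩ ⟨e1, (mem_inter.1 he1).2, hv1⟩))
        hX ⟨e, mem_union_left _ heJT, fun e1 => hxJ (e1 ▸ hZJ heZ)⟩
        (fun hx => absurd (hZJ hx) hxJ)
      refine ⟨insert (ch W x) (Z ∩ JT), ?_, mem_insert_of_mem heJT, ?_, ?_, ?_, ?_, ?_⟩
      · exact insert_subset (h.ch_T1 x y) hZJT
      · rw [disjoint_insert_left]
        exact ⟨fun hh => hxJ (hZJ (mem_inter.1 hh).1), hd0⟩
      · rintro v ⟨e1, he1, hv1⟩ ⟨e2, he2, hv2⟩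
        rcases mem_insert.1 he1 with rfl | he1
        · rw [ch_mem] at hv1
          rcases hv1 with rfl | rfl
          · exact .inl rfl
          · exact absurd hv2 (hs.nYx e2 (mem_inter.1 he2).2)
        · exact hv0 v ⟨e1, he1, hv1⟩ ⟨e2, he2, hv2⟩
      · rw [insert_union]; exact h1
      · rw [insert_union]; exact h2.le
      · intro _
        rw [insert_union]
        exact ⟨mem_insert_self _ _, hxJ, h2⟩
    · have hXe := not_nonempty_iff_eq_empty.1 hX
      have heq : Z ∩ JT ∪ Z ∩ JY = Z := by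
        conv_rhs => rw [hZun]
        rw [hXe, empty_union]
      refine ⟨Z ∩ JT, hZJT, heJT, hd0, hv0, ?_, ?_, fun hh => absurd hh hX⟩
      · rw [heq]; exact hC
      · rw [heq]
  -- second step
  have hG1 : ∀ e ∈ R1 ∪ (Z ∩ JY), e ∈ h.Gs := by
    intro e he
    rcases mem_union.1 he with he | he
    · exact .inr ⟨x, y, hA, hR1T he⟩
    · exact hZG e (mem_inter.1 he).1
  by_cases hY : (Z ∩ JY).Nonempty
  · have hyJ := hny (hY.mono inter_subset_right)
    obtain ⟨-, -, h1, h2⟩ := h.side (R := R1) (B := Z ∩ JY) (x := y) hC1 hG1 rfl hR1d hR1v hY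
      ⟨e, heR1, fun e1 => hyJ (e1 ▸ hZJ heZ)⟩ (by
        intro hy
        rcases mem_union.1 hy with hy | hy
        · exact hy
        · exact absurd (hZJ (mem_inter.1 hy).1) hyJ)
    refine ⟨insert (ch W y) R1, insert_subset (h.ch_T2 x y) hR1T, h1, mem_insert_of_mem heR1,
      by omega, fun hh => hyJ (hh (mem_insert_self _ _))⟩
  · have hYe := not_nonempty_iff_eq_empty.1 hY
    have hX : (Z ∩ JX).Nonempty := by
      by_contra hX
      rw [not_nonempty_iff_eq_empty] at hX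
      apply hZT
      rw [hZun, hX, hYe]
      intro e1 he1
      simp only [union_empty, mem_inter] at he1
      exact ((hs.T e1).1 he1.2).2
    obtain ⟨h1, h2, h3⟩ := hX1 hX
    rw [hYe, union_empty] at hC1 h3
    exact ⟨R1, hR1T, hC1, heR1, h3, fun hh => h2 (hh h1)⟩

theorem copy_gadget {f : W → HV X W} (hf : Function.Injective f)
    (hJ : ∀ e ∈ im f h.E, e ∈ h.Gs) : ∃ x y, h.A x y ∧ im f h.E = h.T x y := by
  obtain ⟨em, hem, hmax⟩ := exists_max_image h.E
    (fun e => toLex (fun l : ℕ => (circs h.E e l).card)) ⟨_, h.hp⟩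
  set J := im f h.E with hJdef
  have heJ : Sym2.map f em ∈ J := mem_image_of_mem _ hem
  obtain ⟨x, y, hA, heT, hg⟩ : ∃ x y, h.A x y ∧ Sym2.map f em ∈ h.T x y ∧
      ∃ g ∈ J, g ∈ h.Pr x y := by
    rcases h.Gs_cases (hJ _ heJ) with ⟨u, hu⟩ | ⟨x, y, hA, hP⟩
    · obtain ⟨C, hCE, hC, heC, -⟩ := hgood.cc em hem em hem
      have hCJ : im f C ⊆ J := image_subset_image hCE
      obtain ⟨x, y, hA, huxy, g, hg, hgP⟩ := h.exists_private (Z := im f C)
        ((Ev_im hf).2 hC.2.1) (fun e he => hJ e (hCJ he)) (u := u)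
        (by rw [← hu]; exact mem_image_of_mem _ heC)
      refine ⟨x, y, hA, ?_, g, hCJ hg, hgP⟩
      rw [hu]
      rcases huxy with rfl | rfl
      · exact h.ch_T1 _ _
      · exact h.ch_T2 _ _
    · exact ⟨x, y, hA, h.Pr_T hP, _, heJ, hP⟩
  refine ⟨x, y, hA, ?_⟩
  have hio := h.io_inj (h.ne_of hA)
  obtain ⟨e', he', hee⟩ := h.mem_T.1 heT
  have hcardeq : J.card = (h.T x y).card := by
    rw [hJdef, card_im hf, T, card_im hio]
  by_contra hne
  have hnot : ¬ h.T x y ⊆ J := fun hsub =>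
    hne (eq_of_subset_of_card_le hsub hcardeq.le).symm
  have hex : ∃ l, ∃ C ∈ circs (h.T x y) (Sym2.map f em) l, ¬ C ⊆ J := by
    obtain ⟨g, hgT, hgJ⟩ := not_subset.1 hnot
    obtain ⟨g', hg', rfl⟩ := h.mem_T.1 hgT
    obtain ⟨C, hCE, hC, h1, h2⟩ := hgood.cc e' he' g' hg'
    refine ⟨(im (h.io x y) C).card, im (h.io x y) C, mem_circs.2 ⟨image_subset_image hCE,
      (Circ_im hio).2 hC, ?_, rfl⟩, fun hh => hgJ (hh (mem_image_of_mem _ h2))⟩
    rw [← hee]
    exact mem_image_of_mem _ h1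
  obtain ⟨C, hC, hCJ⟩ := Nat.find_spec hex
  have hlmin : ∀ m < Nat.find hex, ∀ C ∈ circs (h.T x y) (Sym2.map f em) m, C ⊆ J := by
    intro m hm C hC
    by_contra hcon
    exact Nat.find_min hex hm ⟨C, hC, hcon⟩
  generalize Nat.find hex = l at hC hCJ hlmin
  have hle : ∀ m ≤ l, circs J (Sym2.map f em) m ⊆ circs (h.T x y) (Sym2.map f em) m := by
    intro m hm Z hZ
    rw [mem_circs] at hZ ⊢
    obtain ⟨h1, h2, h3, h4⟩ := hZ
    refine ⟨?_, h2, h3, h4⟩
    by_contra hcon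
    obtain ⟨Z', g1, g2, g3, g4, g5⟩ := h.projT hc hgood hf hJ hA hg heT h1 h2 h3 hcon
    exact g5 (hlmin Z'.card (by omega) Z' (mem_circs.2 ⟨g1, g2, g3, rfl⟩))
  have hlt : toLex (fun l : ℕ => (circs h.E em l).card) <
      toLex (fun l : ℕ => (circs h.E e' l).card) := by
    refine ⟨l, ?_, ?_⟩
    · intro m hm
      change (circs h.E em m).card = (circs h.E e' m).card
      rw [← card_circs_im hf, ← card_circs_im hio h.E e', hee]
      congr 1
      refine Subset.antisymm (hle m hm.le) ?_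
      intro Z hZ
      have := hlmin m hm Z hZ
      rw [mem_circs] at hZ ⊢
      exact ⟨this, hZ.2⟩
    · change (circs h.E em l).card < (circs h.E e' l).card
      rw [← card_circs_im hf, ← card_circs_im hio h.E e', hee]
      refine card_lt_card ⟨hle l le_rfl, fun hh => ?_⟩
      exact hCJ (mem_circs.1 (hh hC)).1
  exact absurd (hmax e' he') (not_le.2 hlt)

end Dat

end Pool.Agent.H165R2.SM
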