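import Pool.Agent.H165R2.SM6
import Pool.Agent.Results.MP_fc2b6d_co.Forests

/-!
# The exchange and the failure of good graphs
-/

open Finset SimpleGraph
open scoped Classical symmDiff

namespace Pool.Agent.H165R2.SM

open HV Pool.Agent.Results.MP_fc2b6d_co.Forests

namespace Dat

variable {X W : Type} (h : Dat X W)

/-- the host graph -/
def G : SimpleGraph (HV X W) := SimpleGraph.fromEdgeSet h.Gs

theorem G_edge : h.G.edgeSet = h.Gs := by
  rw [G, SimpleGraph.edgeSet_fromEdgeSet]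
  ext e
  constructor
  · exact fun he => he.1
  · exact fun he => ⟨he, h.Gs_nd he⟩

theorem exchange (hU : Unst h.A) (F : SimpleGraph (HV X W)) (hF : F ≤ h.G) (X0 : Finset X)
    (hX0 : ∀ x y, h.A x y → x ∉ X0 → y ∉ X0 → ∃ e ∈ h.T x y, e ∉ F.edgeSet) :
    ∃ I ≤ h.G, (∀ x y, h.A x y → (∀ e ∈ h.T x y, e ∈ I.edgeSet) →
      (∀ e ∈ h.T x y, e ∈ F.edgeSet)) ∧
      Cardinal.mk ↥(F.edgeSet \ I.edgeSet) < Cardinal.mk ↥(I.edgeSet \ F.edgeSet) := by
  have hFG : F.edgeSet ⊆ h.Gs := by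
    rw [← h.G_edge]
    exact SimpleGraph.edgeSet_subset_edgeSet.2 hF
  obtain ⟨S, hS⟩ : ∃ S : Set X, ∀ x, x ∈ S ↔ ch W x ∈ F.edgeSet :=
    ⟨{x | ch W x ∈ F.edgeSet}, fun _ => Iff.rfl⟩
  obtain ⟨D, B, R, hBD, hR, hBi, hBS, hlt⟩ := hU S X0
  have hm : ∀ r : X × X, ∃ e, r ∈ R → e ∈ h.Pr r.1 r.2 ∧ e ∉ F.edgeSet := by
    intro r
    by_cases hr : r ∈ R
    · obtain ⟨h1, h2, h3, h4, h5, h6⟩ := hR r hr
      obtain ⟨e, he, heF⟩ := hX0 r.1 r.2 h1 h5 h6
      refine ⟨e, fun _ => ⟨?_, heF⟩⟩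
      rw [Pr, mem_sdiff]
      refine ⟨he, ?_⟩
      simp only [mem_insert, mem_singleton, not_or]
      constructor
      · rintro rfl; exact heF ((hS _).1 h2)
      · rintro rfl; exact heF ((hS _).1 h3)
    · exact ⟨s(hub, hub), fun h => absurd h hr⟩
  choose m hm using hm
  set Is : Set (Sym2 (HV X W)) := (F.edgeSet \ {e | ∃ x ∈ D, e = ch W x}) ∪
    ({e | ∃ x ∈ B, e = ch W x} ∪ {e | ∃ r ∈ R, e ∈ h.Pr r.1 r.2}) with hIs
  have hIG : Is ⊆ h.Gs := by
    rintro e (⟨he, -⟩ | ⟨x, -, rfl⟩ | ⟨r, hr, he⟩)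
    · exact hFG he
    · exact .inl ⟨x, rfl⟩
    · exact .inr ⟨r.1, r.2, (hR r hr).1, h.Pr_T he⟩
  have hIe : (SimpleGraph.fromEdgeSet Is).edgeSet = Is := by
    rw [SimpleGraph.edgeSet_fromEdgeSet]
    ext e
    constructor
    · exact fun he => he.1
    · exact fun he => ⟨he, h.Gs_nd (hIG he)⟩
  have hch : ∀ x, ch W x ∈ Is → x ∈ B ∨ (x ∈ S ∧ x ∉ D) := by
    rintro x (⟨he, he'⟩ | ⟨y, hy, he⟩ | ⟨r, hr, he⟩)
    · exact .inr ⟨(hS x).2 he, fun hD => he' ⟨x, hD, rfl⟩⟩
    · rw [ch_inj he]; exact .inl hy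
    · exact (h.Pr_not_ch he).elim
  refine ⟨SimpleGraph.fromEdgeSet Is, ?_, ?_, ?_⟩
  · rw [← SimpleGraph.edgeSet_subset_edgeSet, hIe, h.G_edge]
    exact hIG
  · rw [hIe]
    intro x y hA hT e heT
    have hx := hch x (hT _ (h.ch_T1 x y))
    have hy := hch y (hT _ (h.ch_T2 x y))
    have hxy : (x ∈ S ∧ x ∉ D) ∧ (y ∈ S ∧ y ∉ D) := by
      rcases hx with hx | hx
      · exfalso
        rcases hy with hy | hy
        · exact hBi x hx y hy hA
        · exact (hBS x hx y hy.1 hy.2).1 hA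
      · rcases hy with hy | hy
        · exact ((hBS y hy x hx.1 hx.2).2 hA).elim
        · exact ⟨hx, hy⟩
    by_cases e1 : e = ch W x
    · rw [e1]; exact (hS x).1 hxy.1.1
    · by_cases e2 : e = ch W y
      · rw [e2]; exact (hS y).1 hxy.2.1
      · have heP : e ∈ h.Pr x y := by
          rw [Pr, mem_sdiff]
          simp [heT, e1, e2]
        rcases hT e heT with ⟨he, -⟩ | ⟨z, hz, he⟩ | ⟨r, hr, he⟩
        · exact he
        · rw [he] at heP; exact (h.Pr_not_ch heP).elim
        · exfalso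
          obtain ⟨e3, e4⟩ := h.Pr_uniq hA (hR r hr).1 heP (h.Pr_T he)
          obtain ⟨-, -, -, h4, -, -⟩ := hR r hr
          rw [e3, e4] at h4
          rcases h4 with h4 | h4
          · exact hxy.1.2 h4
          · exact hxy.2.2 h4
  · rw [hIe]
    -- the removed edges
    have h1 : F.edgeSet \ Is ⊆ ((((D.filter (· ∈ S)) \ B).image (ch W) : Finset _) : Set _) := by
      rintro e ⟨he, heI⟩
      by_cases hD : ∃ x ∈ D, e = ch W x
      · obtain ⟨x, hx, rfl⟩ := hD
        rw [coe_image]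
        refine ⟨x, ?_, rfl⟩
        rw [mem_coe, mem_sdiff, mem_filter]
        exact ⟨⟨hx, (hS x).2 he⟩, fun hxB => heI (.inr (.inl ⟨x, hxB, rfl⟩))⟩
      · exact absurd (.inl ⟨he, hD⟩) heI
    -- the new edges
    have h2 : ((((B.filter (· ∉ S)).image (ch W)) ∪ R.image m : Finset _) : Set _) ⊆
        Is \ F.edgeSet := by
      intro e he
      rw [mem_coe, mem_union, mem_image, mem_image] at he
      rcases he with ⟨x, hx, rfl⟩ | ⟨r, hr, rfl⟩
      · rw [mem_filter] at hx
        exact ⟨.inr (.inl ⟨x, hx.1, rfl⟩), fun hh => hx.2 ((hS x).2 hh)⟩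
      · exact ⟨.inr (.inr ⟨r, hr, (hm r hr).1⟩), (hm r hr).2⟩
    have c1 : Cardinal.mk ↥(F.edgeSet \ Is) ≤ ((((D.filter (· ∈ S)) \ B).card : ℕ) : Cardinal) := by
      refine (Cardinal.mk_le_mk_of_subset h1).trans ?_
      rw [Finset.coe_sort_coe, Cardinal.mk_coe_finset]
      exact_mod_cast card_image_le
    have c2 : ((((B.filter (· ∉ S)).card + R.card : ℕ)) : Cardinal) ≤
        Cardinal.mk ↥(Is \ F.edgeSet) := by
      refine le_trans ?_ (Cardinal.mk_le_mk_of_subset h2)
      rw [Finset.coe_sort_coe, Cardinal.mk_coe_finset]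
      have : ((B.filter (· ∉ S)).image (ch W) ∪ R.image m).card =
          (B.filter (· ∉ S)).card + R.card := by
        rw [card_union_of_disjoint, card_image_of_injective _ (fun x y e => ch_inj e),
          card_image_of_injOn]
        · intro r hr r' hr' e
          have := h.Pr_uniq (hR r hr).1 (hR r' hr').1 (hm r hr).1
            (h.Pr_T (by rw [e]; exact (hm r' hr').1))
          exact (Prod.ext this.1 this.2).symm
        · rw [Finset.disjoint_left]
          intro e he he'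
          rw [mem_image] at he he'
          obtain ⟨x, -, rfl⟩ := he
          obtain ⟨r, hr, he'⟩ := he'
          have := (hm r hr).1
          rw [he'] at this
          exact h.Pr_not_ch this
      rw [this]
    refine lt_of_le_of_lt c1 (lt_of_lt_of_le ?_ c2)
    rw [Nat.cast_lt]
    have c3 : ((D.filter (· ∈ S)) \ B).card + (B.filter (· ∈ S)).card =
        (D.filter (· ∈ S)).card := by
      rw [← card_union_of_disjoint]
      · congr 1
        ext x
        simp only [mem_union, mem_sdiff, mem_filter]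
        constructor
        · rintro (⟨h1, _⟩ | ⟨h1, h2⟩)
          · exact h1
          · exact ⟨hBD h1, h2⟩
        · rintro ⟨h1, h2⟩
          by_cases hB : x ∈ B
          · exact .inr ⟨hB, h2⟩
          · exact .inl ⟨⟨h1, h2⟩, hB⟩
      · rw [Finset.disjoint_left]
        intro x h1 h2
        exact (mem_sdiff.1 h1).2 (mem_filter.1 h2).1
    have c4 : (B.filter (· ∈ S)).card + (B.filter (· ∉ S)).card = B.card :=
      card_filter_add_card_filter_not _
    omega

end Dat

theorem fail_good {W : Type} (H : SimpleGraph W) (E : Finset (Sym2 W))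
    (hE : ∀ e, e ∈ E ↔ e ∈ H.edgeSet) (v0 p q : W) (hpq : p ≠ q) (hp : H.Adj v0 p)
    (hq : H.Adj v0 q) (hgood : Good E v0 p q) : Fail H := by
  obtain ⟨A, hU, hA⟩ := exists_conflict E.card
  let h : Dat Cx W :=
    { A := A
      n := 2 * (E.card + 1)
      hn := by omega
      acyc := hA
      E := E
      nd := fun e he => H.not_isDiag_of_mem_edgeSet ((hE e).1 he)
      v0 := v0
      p := p
      q := q
      hpq := hpq
      hp := (hE _).2 hp
      hq := (hE _).2 hq }
  refine ⟨HV Cx W, h.G, fun F hF hfree => ?_⟩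
  have hcont : ∀ K : SimpleGraph (HV Cx W), ∀ x y, h.A x y → (∀ e ∈ h.T x y, e ∈ K.edgeSet) →
      H ⊑ K := by
    intro K x y hxy hK
    refine contained_of (h.io x y) (h.io_inj (h.ne_of hxy)) fun a b hab => ?_
    have h1 : s(a, b) ∈ h.E := (hE _).2 hab
    exact hK _ (h.mem_T.2 ⟨_, h1, rfl⟩)
  obtain ⟨I, hI, hT, hlt⟩ := h.exchange hU F hF ∅ (by
    intro x y hxy _ _
    by_contra hcon
    push Not at hcon
    exact hfree (hcont F x y hxy hcon))
  refine ⟨I, hI, ?_, hlt⟩
  rintro ⟨f⟩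
  have hinj : Function.Injective f := f.injective
  have hmem : ∀ e ∈ im f h.E, e ∈ I.edgeSet := by
    intro e he
    rw [im, mem_image] at he
    obtain ⟨e', he', rfl⟩ := he
    induction e' using Sym2.ind with
    | _ a b =>
      have : H.Adj a b := (hE _).1 he'
      exact f.toHom.map_adj this
  obtain ⟨x, y, hxy, heq⟩ := h.copy_gadget (by show E.card ≤ 2 * (E.card + 1); omega) hgood
    hinj (by
      intro e he
      rw [← h.G_edge]
      exact SimpleGraph.edgeSet_subset_edgeSet.2 hI (hmem e he))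
  apply hfree
  refine hcont F x y hxy (hT x y hxy ?_)
  rw [← heq]
  exact hmem

end Pool.Agent.H165R2.SM
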