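import Pool.Agent.H165R2.SM7

/-!
# Two-connected graphs: common circuits
-/

open Finset SimpleGraph
open scoped Classical symmDiff

namespace Pool.Agent.H165R2.SM

theorem dg_symmDiff {V : Type*} (A B : Finset (Sym2 V)) (v : V) :
    Even (dg (A ∆ B) v) ↔ (Even (dg A v) ↔ Even (dg B v)) := by
  have e1 : dg (A ∆ B) v = dg (A \ B) v + dg (B \ A) v := by
    rw [← dg_union]
    · rfl
    · rw [Finset.disjoint_left]
      intro e h1 h2
      exact (mem_sdiff.1 h2).2 (mem_sdiff.1 h1).1
  have e2 : dg A v = dg (A ∩ B) v + dg (A \ B) v := by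
    rw [dg_sdiff (inter_subset_left : A ∩ B ⊆ A)]
    congr 2
    ext e; simp
  have e3 : dg B v = dg (A ∩ B) v + dg (B \ A) v := by
    rw [dg_sdiff (inter_subset_right : A ∩ B ⊆ B)]
    congr 2
    ext e; simp
  rw [e1, e2, e3]
  simp only [Nat.even_iff]
  omega

theorem dg_single {V : Type*} (e : Sym2 V) (v : V) : dg {e} v = if v ∈ e then 1 else 0 := by
  rw [dg, filter_singleton]
  split_ifs <;> simp

/-- a set of edges with odd degrees exactly at `a` and `b` -/
theorem path_set {V : Type*} {K : SimpleGraph V} {a b : V} (h : K.Reachable a b) :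
    ∃ Z : Finset (Sym2 V), (∀ e ∈ Z, e ∈ K.edgeSet) ∧
      ∀ v, Even (dg Z v) ↔ (v = a ↔ v = b) := by
  obtain ⟨p⟩ := h
  induction p with
  | nil => exact ⟨∅, by simp, fun v => by simp [dg]⟩
  | @cons a c b hac p ih =>
    obtain ⟨Z, hZ, hZ'⟩ := ih
    refine ⟨{s(a, c)} ∆ Z, ?_, fun v => ?_⟩
    · intro e he
      rw [mem_symmDiff, mem_singleton] at he
      rcases he with ⟨rfl, -⟩ | ⟨he, -⟩
      · exact hac
      · exact hZ e he
    · rw [dg_symmDiff, hZ', dg_single]
      have hne : a ≠ c := hac.ne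
      by_cases h1 : v = a
      · subst h1
        rw [if_pos (Sym2.mem_mk_left _ _)]
        have : ¬ Even 1 := by decide
        by_cases h2 : v = b <;> simp [hne, this, h2]
        rintro rfl
        exact hne h2
      · by_cases h3 : v = c
        · subst h3
          rw [if_pos (Sym2.mem_mk_right _ _)]
          have : ¬ Even 1 := by decide
          simp [h1, this]
        · rw [if_neg (by rw [Sym2.mem_iff]; tauto)]
          simp [h1, h3]

section
variable {W : Type} {H : SimpleGraph W} {E : Finset (Sym2 W)} (hE : ∀ e, e ∈ E ↔ e ∈ H.edgeSet)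
include hE

/-- adjacent edges of a graph without cut vertices lie on a common circuit -/
theorem Rl_adj (hcut : ∀ v : W, (H.induce {v}ᶜ).Preconnected) {u v w : W} (hv : H.Adj u v)
    (hw : H.Adj u w) (hvw : v ≠ w) : Rl E s(u, v) s(u, w) := by
  have hvm : v ∈ ({u}ᶜ : Set W) := hv.ne'
  have hwm : w ∈ ({u}ᶜ : Set W) := hw.ne'
  obtain ⟨Z, hZ, hZ'⟩ := path_set (hcut u ⟨v, hvm⟩ ⟨w, hwm⟩)
  have hinj : Function.Injective (Subtype.val : ({u}ᶜ : Set W) → W) := Subtype.val_injective
  set Y := im (Subtype.val : ({u}ᶜ : Set W) → W) Z with hY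
  have hYE : ∀ e ∈ Y, e ∈ E := by
    intro e he
    rw [hY, im, mem_image] at he
    obtain ⟨e', he', rfl⟩ := he
    rw [hE]
    induction e' using Sym2.ind with
    | _ a b =>
      have := hZ _ he'
      rw [Sym2.map_mk]
      exact this
  have hYu : ∀ e ∈ Y, u ∉ e := by
    intro e he hu
    rw [hY, im, mem_image] at he
    obtain ⟨e', he', rfl⟩ := he
    rw [Sym2.mem_map] at hu
    obtain ⟨a, -, ha⟩ := hu
    exact a.2 ha
  have hYd : ∀ z, z ≠ u → (Even (dg Y z) ↔ (z = v ↔ z = w)) := by
    intro z hz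
    have hzm : z ∈ ({u}ᶜ : Set W) := hz
    have h1 := hZ' ⟨z, hzm⟩
    rw [← dg_im hinj, Subtype.mk_eq_mk, Subtype.mk_eq_mk] at h1
    exact h1
  have hn2 : s(u, w) ∉ Y := fun h => hYu _ h (Sym2.mem_mk_left _ _)
  have hn1 : s(u, v) ∉ insert s(u, w) Y := by
    rw [mem_insert, not_or]
    refine ⟨?_, fun h => hYu _ h (Sym2.mem_mk_left _ _)⟩
    intro h
    rw [Sym2.eq_iff] at h
    rcases h with ⟨-, h⟩ | ⟨h, -⟩
    · exact hvw h
    · exact hw.ne h
  have hdu : dg Y u = 0 := dg_eq_zero hYu
  have hEv : Ev (insert s(u, v) (insert s(u, w) Y)) := by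
    intro z
    rw [dg_insert hn1, dg_insert hn2]
    by_cases hzu : z = u
    · subst hzu
      rw [if_pos (Sym2.mem_mk_left _ _), if_pos (Sym2.mem_mk_left _ _), hdu]
      decide
    · have h1 := hYd z hzu
      by_cases hzv : z = v
      · subst hzv
        have h2 : ¬ Even (dg Y z) := by
          rw [h1]; simp [hvw]
        rw [if_pos (Sym2.mem_mk_right _ _), if_neg (by rw [Sym2.mem_iff]; tauto)]
        rw [Nat.even_iff] at h2 ⊢
        omega
      · by_cases hzw : z = w
        · subst hzw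
          have h2 : ¬ Even (dg Y z) := by
            rw [h1]; simp [hvw.symm]
          rw [if_neg (by rw [Sym2.mem_iff]; tauto), if_pos (Sym2.mem_mk_right _ _)]
          rw [Nat.even_iff] at h2 ⊢
          omega
        · have h2 : Even (dg Y z) := by
            rw [h1]; simp [hzv, hzw]
          rw [if_neg (by rw [Sym2.mem_iff]; tauto), if_neg (by rw [Sym2.mem_iff]; tauto)]
          simpa using h2
  obtain ⟨C, hCs, hC, hvC⟩ := exists_circ hEv (e := s(u, v)) (mem_insert_self _ _)
  refine ⟨C, ?_, hC, hvC, ?_⟩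
  · intro e he
    have := hCs he
    rw [mem_insert, mem_insert] at this
    rcases this with rfl | rfl | h
    · rw [hE]; exact hv
    · rw [hE]; exact hw
    · exact hYE e h
  · obtain ⟨g, hg, hne, hug⟩ := Dat.Ev_other hC.2.1 hvC (Sym2.mem_mk_left u v)
    have := hCs hg
    rw [mem_insert, mem_insert] at this
    rcases this with h | h | h
    · exact absurd h hne
    · rw [← h]; exact hg
    · exact absurd hug (hYu g h)

/-- in a 2-connected graph any two edges lie on a common circuit -/
theorem Rl_all (hconn : H.Preconnected) (hcut : ∀ v : W, (H.induce {v}ᶜ).Preconnected)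
    (h3 : ∃ a b c : W, a ≠ b ∧ a ≠ c ∧ b ≠ c) : ∀ e ∈ E, ∀ g ∈ E, Rl E e g := by
  -- every edge has a neighbouring edge
  have hself : ∀ u v, H.Adj u v → Rl E s(u, v) s(u, v) := by
    intro u v huv
    obtain ⟨z, hzu, hzv⟩ : ∃ z, z ≠ u ∧ z ≠ v := by
      obtain ⟨a, b, c, h1, h2, h3⟩ := h3
      by_cases ha : a = u ∨ a = v
      · by_cases hb : b = u ∨ b = v
        · refine ⟨c, ?_, ?_⟩
          · rintro rfl
            rcases ha with ha | ha
            · exact h2 ha
            · rcases hb with hb | hb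
              · exact h3 hb
              · exact h1 (ha.trans hb.symm)
          · rintro rfl
            rcases ha with ha | ha
            · rcases hb with hb | hb
              · exact h1 (ha.trans hb.symm)
              · exact h3 hb
            · exact h2 ha
        · push Not at hb
          exact ⟨b, hb.1, hb.2⟩
      · push Not at ha
        exact ⟨a, ha.1, ha.2⟩
    obtain ⟨p⟩ := hcut u ⟨v, huv.ne'⟩ ⟨z, hzu⟩
    cases p with
    | nil => exact absurd rfl hzv
    | @cons _ c _ hvc p =>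
      have h4 : H.Adj v c.1 := hvc
      have h5 : u ≠ c.1 := fun h => c.2 h.symm
      have h6 := Rl_adj hE hcut huv.symm h4 h5
      rw [Sym2.eq_swap]
      exact h6.trans h6.symm
  have hadj : ∀ u v w, H.Adj u v → H.Adj u w → Rl E s(u, v) s(u, w) := by
    intro u v w hv hw
    by_cases hvw : v = w
    · subst hvw
      exact hself u v hv
    · exact Rl_adj hE hcut hv hw hvw
  intro e he g hg
  induction e using Sym2.ind with
  | _ a b =>
  induction g using Sym2.ind with
  | _ c d =>
  rw [hE, mem_edgeSet] at he hg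
  have key : ∀ x y, H.Reachable x y → (∀ z, H.Adj x z → Rl E s(a, b) s(x, z)) →
      ∀ z, H.Adj y z → Rl E s(a, b) s(y, z) := by
    rintro x y ⟨p⟩
    induction p with
    | nil => exact id
    | @cons x y' y hxy p ih =>
      intro h1
      apply ih
      intro z hz
      have h2 := h1 y' hxy
      have h3 := hadj y' x z hxy.symm hz
      rw [Sym2.eq_swap] at h3
      exact h2.trans h3
  exact key a c (hconn a c) (fun z hz => hadj a b z he hz) d hg

/-- a separating edge in the sense of `Sep` separates the graph -/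
theorem not_sep {a b : W} (hcon : (H.induce ({a, b}ᶜ : Set W)).Preconnected) : ¬ Sep E a b := by
  rintro ⟨A, B, hA, hB, hd, hun, hv⟩
  have hmem : ∀ e, e ∈ A ∨ e ∈ B ↔ e ≠ s(a, b) ∧ e ∈ H.edgeSet := by
    intro e
    rw [← mem_union, hun, mem_erase, hE]
  have hout : ∀ e, e ∈ A ∨ e ∈ B → ∃ x ∈ e, x ≠ a ∧ x ≠ b := by
    intro e he
    rw [hmem] at he
    induction e using Sym2.ind with
    | _ x y =>
      by_contra hcon
      push Not at hcon
      have hxy : x ≠ y := he.2.ne
      have hx := hcon x (Sym2.mem_mk_left _ _)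
      have hy := hcon y (Sym2.mem_mk_right _ _)
      apply he.1
      rw [Sym2.eq_iff]
      by_cases h1 : x = a
      · left
        refine ⟨h1, ?_⟩
        apply hy
        rintro rfl
        exact hxy h1
      · right
        have h2 := hx h1
        refine ⟨h2, ?_⟩
        by_contra h3
        exact hxy (h2.trans (hy h3).symm)
  obtain ⟨e1, he1⟩ := hA
  obtain ⟨e2, he2⟩ := hB
  obtain ⟨x, hx, hxa, hxb⟩ := hout e1 (.inl he1)
  obtain ⟨z, hz, hza, hzb⟩ := hout e2 (.inr he2)
  have hxs : x ∈ ({a, b}ᶜ : Set W) := by simp [hxa, hxb]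
  have hzs : z ∈ ({a, b}ᶜ : Set W) := by simp [hza, hzb]
  obtain ⟨p⟩ := hcon ⟨x, hxs⟩ ⟨z, hzs⟩
  have key : ∀ u v : ({a, b}ᶜ : Set W), (H.induce ({a, b}ᶜ : Set W)).Walk u v →
      (∃ e ∈ A, u.1 ∈ e) → ∃ e ∈ A, v.1 ∈ e := by
    intro u v p
    induction p with
    | nil => exact id
    | @cons u u' v huv p ih =>
      intro hu
      apply ih
      have hadj : H.Adj u.1 u'.1 := huv
      have hu2 := u.2
      simp only [Set.mem_compl_iff, Set.mem_insert_iff, Set.mem_singleton_iff, not_or] at hu2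
      have h1 : s(u.1, u'.1) ∈ A ∨ s(u.1, u'.1) ∈ B := by
        rw [hmem]
        refine ⟨?_, hadj⟩
        intro h
        rw [Sym2.eq_iff] at h
        rcases h with ⟨h, -⟩ | ⟨h, -⟩
        · exact hu2.1 h
        · exact hu2.2 h
      rcases h1 with h1 | h1
      · exact ⟨_, h1, Sym2.mem_mk_right _ _⟩
      · exfalso
        rcases hv u.1 hu ⟨_, h1, Sym2.mem_mk_left _ _⟩ with h | h
        · exact hu2.1 h
        · exact hu2.2 h
  rcases hv z (key _ _ p ⟨e1, he1, hx⟩) ⟨e2, he2, hz⟩ with h | h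
  · exact hza h
  · exact hzb h

end

/-- 2-connected graphs in which the removal of the two ends of an edge never disconnects -/
structure Tight {W : Type*} (H : SimpleGraph W) : Prop where
  three : ∃ a b c : W, a ≠ b ∧ a ≠ c ∧ b ≠ c
  conn : H.Preconnected
  cut : ∀ v : W, (H.induce {v}ᶜ).Preconnected
  edge : ∀ a b : W, H.Adj a b → (H.induce {a, b}ᶜ).Preconnected

theorem Tight.exists_nbrs {W : Type*} {H : SimpleGraph W} (h : Tight H) :
    ∃ v p q, p ≠ q ∧ H.Adj v p ∧ H.Adj v q := by
  obtain ⟨a, b, c, hab, hac, hbc⟩ := h.three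
  -- a neighbour of `a`
  obtain ⟨x, hx⟩ : ∃ x, H.Adj a x := by
    obtain ⟨p⟩ := h.conn a b
    cases p with
    | nil => exact absurd rfl hab
    | cons h' _ => exact ⟨_, h'⟩
  -- a vertex different from `a` and `x`
  obtain ⟨z, hza, hzx⟩ : ∃ z, z ≠ a ∧ z ≠ x := by
    by_cases h1 : b = x
    · refine ⟨c, hac.symm, ?_⟩
      rintro rfl
      exact hbc h1
    · exact ⟨b, hab.symm, h1⟩
  obtain ⟨p⟩ := h.cut x ⟨a, hx.ne⟩ ⟨z, hzx⟩
  cases p with
  | nil => exact absurd rfl hza
  | @cons _ y _ h' _ =>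
    exact ⟨a, x, y.1, fun h => y.2 h.symm, hx, h'⟩

theorem Tight.good {W : Type} {H : SimpleGraph W} (h : Tight H) {E : Finset (Sym2 W)}
    (hE : ∀ e, e ∈ E ↔ e ∈ H.edgeSet) (v0 p q : W) : Good E v0 p q where
  cc := Rl_all hE h.conn h.cut h.three
  sep a b hab hs := absurd hs (not_sep hE (h.edge a b ((hE _).1 hab)))

theorem Tight.fail {W : Type} [Finite W] {H : SimpleGraph W} (h : Tight H) :
    Pool.Agent.Results.MP_fc2b6d_co.Forests.Fail H := by
  obtain ⟨v, p, q, hpq, hp, hq⟩ := h.exists_nbrs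
  have hfin : H.edgeSet.Finite := Set.toFinite _
  exact fail_good H hfin.toFinset (fun e => hfin.mem_toFinset) v p q hpq hp hq
    (h.good (fun e => hfin.mem_toFinset) v p q)

end Pool.Agent.H165R2.SM
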