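import Pool.Agent.Results.MP_fc2b6d_co.Forests

/-!
# Robust completion: from `H[U]` to `H`
-/

open SimpleGraph
open scoped Classical

namespace Pool.Agent.H165R2.SM

open Pool.Agent.Results.MP_fc2b6d_co.Forests

/-- `I0` together with many private copies of `H - U` attached along all embeddings of `U` -/
def rob {W : Type} (H : SimpleGraph W) (U : Set W) (V0 K : Type) (I0 : SimpleGraph V0) :
    SimpleGraph (V0 ⊕ ((U ↪ V0) × K × ↥(Uᶜ))) where
  Adj a b := match a, b with
    | .inl a, .inl b => I0.Adj a b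
    | .inl a, .inr (θ, _, w) => ∃ u : U, θ u = a ∧ H.Adj u w
    | .inr (θ, _, w), .inl a => ∃ u : U, θ u = a ∧ H.Adj u w
    | .inr (θ, κ, w), .inr (θ', κ', w') => θ = θ' ∧ κ = κ' ∧ H.Adj w w'
  symm := ⟨by
    rintro (a | ⟨θ, κ, w⟩) (b | ⟨θ', κ', w'⟩) h
    · exact SimpleGraph.Adj.symm (G := I0) h
    · exact h
    · exact h
    · exact ⟨h.1.symm, h.2.1.symm, h.2.2.symm⟩⟩
  loopless := ⟨by
    rintro (a | ⟨θ, κ, w⟩) h
    · exact I0.loopless.irrefl a h
    · exact H.loopless.irrefl _ h.2.2⟩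

section
variable {W : Type} {H : SimpleGraph W} {U : Set W} {V0 K : Type} {I0 : SimpleGraph V0}

@[simp] theorem rob_ll (a b : V0) : (rob H U V0 K I0).Adj (.inl a) (.inl b) ↔ I0.Adj a b := Iff.rfl
@[simp] theorem rob_lr (a : V0) (θ : U ↪ V0) (κ : K) (w : ↥(Uᶜ)) :
    (rob H U V0 K I0).Adj (.inl a) (.inr (θ, κ, w)) ↔ ∃ u : U, θ u = a ∧ H.Adj u w := Iff.rfl
@[simp] theorem rob_rl (a : V0) (θ : U ↪ V0) (κ : K) (w : ↥(Uᶜ)) :
    (rob H U V0 K I0).Adj (.inr (θ, κ, w)) (.inl a) ↔ ∃ u : U, θ u = a ∧ H.Adj u w := Iff.rfl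
@[simp] theorem rob_rr (θ θ' : U ↪ V0) (κ κ' : K) (w w' : ↥(Uᶜ)) :
    (rob H U V0 K I0).Adj (.inr (θ, κ, w)) (.inr (θ', κ', w')) ↔
      θ = θ' ∧ κ = κ' ∧ H.Adj w w' := Iff.rfl

theorem rob_mono {I1 : SimpleGraph V0} (h : I0 ≤ I1) : rob H U V0 K I0 ≤ rob H U V0 K I1 := by
  rintro (a | ⟨θ, κ, w⟩) (b | ⟨θ', κ', w'⟩) hab
  · exact h hab
  · exact hab
  · exact hab
  · exact hab

end

/-- if the failure holds for `H[U]` and every copy of `H` in a robust completion gives a copy
of `H[U]` in the core, then it fails for `H` -/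
theorem robust {W : Type} {H : SimpleGraph W} (U : Set W) (hedge : ∃ a b : U, H.Adj a b)
    (hfail : Fail (H.induce U))
    (hcond : ∀ (V0 K : Type) (I0 : SimpleGraph V0), H ⊑ rob H U V0 K I0 → H.induce U ⊑ I0) :
    Fail H := by
  obtain ⟨V0, G0, hG0⟩ := hfail
  let K := Set (Sym2 V0)
  refine ⟨_, rob H U V0 K G0, fun F hF hfree => ?_⟩
  set F0 : SimpleGraph V0 := F.comap Sum.inl with hF0
  have hF0G : F0 ≤ G0 := by
    intro a b hab
    exact hF hab
  -- edges of `F` outside a robust completion lie in the core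
  have hout : ∀ I0 : SimpleGraph V0, ∀ e ∈ F.edgeSet \ (rob H U V0 K I0).edgeSet,
      ∃ e' ∈ F0.edgeSet \ I0.edgeSet, Sym2.map Sum.inl e' = e := by
    intro I0 e he
    induction e using Sym2.ind with
    | _ a b =>
      obtain ⟨h1, h2⟩ := he
      rw [mem_edgeSet] at h1 h2
      have h3 := hF h1
      rcases a with a | ⟨θ, κ, w⟩ <;> rcases b with b | ⟨θ', κ', w'⟩
      · exact ⟨s(a, b), ⟨h1, h2⟩, rfl⟩
      · exact absurd h3 h2
      · exact absurd h3 h2
      · exact absurd h3 h2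
  have hinj : Function.Injective
      (Sym2.map (Sum.inl : V0 → V0 ⊕ ((U ↪ V0) × K × ↥(Uᶜ)))) :=
    Sym2.map.injective Sum.inl_injective
  by_cases hc : (H.induce U).Free F0
  · obtain ⟨I0, hI0, hfree0, hlt⟩ := hG0 F0 hF0G hc
    refine ⟨rob H U V0 K I0, rob_mono hI0, fun h => hfree0 (hcond V0 K I0 h), ?_⟩
    have h1 : Cardinal.mk ↥(F.edgeSet \ (rob H U V0 K I0).edgeSet) ≤
        Cardinal.mk ↥(F0.edgeSet \ I0.edgeSet) := by
      choose g hg hg' using hout I0
      refine Cardinal.mk_le_of_injective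
        (f := fun e : ↥(F.edgeSet \ (rob H U V0 K I0).edgeSet) =>
          (⟨g e.1 e.2, hg e.1 e.2⟩ : ↥(F0.edgeSet \ I0.edgeSet))) ?_
      intro e e' h
      have h2 : g e.1 e.2 = g e'.1 e'.2 := congrArg Subtype.val h
      apply Subtype.ext
      rw [← hg' e.1 e.2, ← hg' e'.1 e'.2, h2]
    have h2 : Cardinal.mk ↥(I0.edgeSet \ F0.edgeSet) ≤
        Cardinal.mk ↥((rob H U V0 K I0).edgeSet \ F.edgeSet) := by
      refine Cardinal.mk_le_of_injective
        (f := fun e : ↥(I0.edgeSet \ F0.edgeSet) =>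
          (⟨Sym2.map Sum.inl e.1, ?_⟩ : ↥((rob H U V0 K I0).edgeSet \ F.edgeSet))) ?_
      · obtain ⟨e, he⟩ := e
        induction e using Sym2.ind with
        | _ a b => exact ⟨he.1, he.2⟩
      · intro e e' h
        exact Subtype.ext (hinj (congrArg Subtype.val h))
    exact lt_of_le_of_lt h1 (lt_of_lt_of_le hlt h2)
  · unfold SimpleGraph.Free at hc
    rw [not_not] at hc
    obtain ⟨θ0⟩ := hc
    let θ : U ↪ V0 := ⟨θ0, θ0.injective⟩
    -- a missing edge for every `κ`
    have hmiss : ∀ κ : K, ∃ e : Sym2 (V0 ⊕ ((U ↪ V0) × K × ↥(Uᶜ))),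
        e ∈ (rob H U V0 K ⊥).edgeSet ∧ e ∉ F.edgeSet ∧ ∃ w, (Sum.inr (θ, κ, w)) ∈ e := by
      intro κ
      by_contra hcon
      push Not at hcon
      apply hfree
      let f : W → V0 ⊕ ((U ↪ V0) × K × ↥(Uᶜ)) := fun w =>
        if hw : w ∈ U then .inl (θ ⟨w, hw⟩) else .inr (θ, κ, ⟨w, hw⟩)
      have fin : ∀ w (hw : w ∈ U), f w = .inl (θ ⟨w, hw⟩) := fun w hw => dif_pos hw
      have fout : ∀ w (hw : w ∉ U), f w = .inr (θ, κ, ⟨w, hw⟩) := fun w hw => dif_neg hw
      refine contained_of f ?_ ?_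
      · intro a b hab
        by_cases ha : a ∈ U <;> by_cases hb : b ∈ U
        · rw [fin a ha, fin b hb] at hab
          have := θ.injective (Sum.inl_injective hab)
          exact congrArg Subtype.val this
        · rw [fin a ha, fout b hb] at hab
          cases hab
        · rw [fout a ha, fin b hb] at hab
          cases hab
        · rw [fout a ha, fout b hb] at hab
          have := (Prod.mk.inj (Prod.mk.inj (Sum.inr_injective hab)).2).2
          exact congrArg Subtype.val this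
      · intro a b hab
        by_cases ha : a ∈ U <;> by_cases hb : b ∈ U
        · rw [fin a ha, fin b hb]
          have : (H.induce U).Adj ⟨a, ha⟩ ⟨b, hb⟩ := hab
          exact θ0.toHom.map_adj this
        · rw [fin a ha, fout b hb]
          by_contra hn
          exact hcon s(.inl (θ ⟨a, ha⟩), .inr (θ, κ, ⟨b, hb⟩)) ⟨⟨a, ha⟩, rfl, hab⟩ hn ⟨b, hb⟩
            (Sym2.mem_mk_right _ _)
        · rw [fout a ha, fin b hb]
          by_contra hn
          exact hcon s(.inr (θ, κ, ⟨a, ha⟩), .inl (θ ⟨b, hb⟩)) ⟨⟨b, hb⟩, rfl, hab.symm⟩ hn ⟨a, ha⟩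
            (Sym2.mem_mk_left _ _)
        · rw [fout a ha, fout b hb]
          by_contra hn
          exact hcon s(.inr (θ, κ, ⟨a, ha⟩), .inr (θ, κ, ⟨b, hb⟩)) ⟨rfl, rfl, hab⟩ hn ⟨a, ha⟩
            (Sym2.mem_mk_left _ _)
    choose m hm1 hm2 hm3 using hmiss
    refine ⟨rob H U V0 K ⊥, rob_mono bot_le, ?_, ?_⟩
    · intro h
      obtain ⟨g⟩ := hcond V0 K ⊥ h
      obtain ⟨a, b, hab⟩ := hedge
      have : (H.induce U).Adj a b := hab
      exact g.toHom.map_adj this
    · have h1 : Cardinal.mk ↥(F.edgeSet \ (rob H U V0 K ⊥).edgeSet) ≤ Cardinal.mk (Sym2 V0) := by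
        choose g hg hg' using hout ⊥
        refine Cardinal.mk_le_of_injective
          (f := fun e : ↥(F.edgeSet \ (rob H U V0 K ⊥).edgeSet) => g e.1 e.2) ?_
        intro e e' h
        apply Subtype.ext
        dsimp only at h
        rw [← hg' e.1 e.2, ← hg' e'.1 e'.2, h]
      have h2 : Cardinal.mk K ≤ Cardinal.mk ↥((rob H U V0 K ⊥).edgeSet \ F.edgeSet) := by
        refine Cardinal.mk_le_of_injective
          (f := fun κ : K => (⟨m κ, hm1 κ, hm2 κ⟩ : ↥((rob H U V0 K ⊥).edgeSet \ F.edgeSet))) ?_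
        intro κ κ' h
        have h3 : m κ = m κ' := congrArg Subtype.val h
        obtain ⟨w, hw⟩ := hm3 κ
        obtain ⟨w', hw'⟩ := hm3 κ'
        have h4 := hm1 κ
        rw [h3] at hw h4
        generalize m κ' = e at hw hw' h4
        induction e using Sym2.ind with
        | _ a b =>
          rw [Sym2.mem_iff] at hw hw'
          rw [mem_edgeSet] at h4
          rcases hw with rfl | rfl
          · rcases hw' with hw' | rfl
            · exact (Prod.mk.inj (Prod.mk.inj (Sum.inr_injective hw')).2).1.symm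
            · exact h4.2.1
          · rcases hw' with rfl | hw'
            · exact h4.2.1.symm
            · exact (Prod.mk.inj (Prod.mk.inj (Sum.inr_injective hw')).2).1.symm
      refine lt_of_le_of_lt h1 (lt_of_lt_of_le ?_ h2)
      rw [Cardinal.mk_set]
      exact Cardinal.cantor _

/-- the degree reduction -/
theorem degree_step {W : Type} [Finite W] {H : SimpleGraph W} (k : ℕ) (U : Set W)
    (hU : ∀ w, w ∈ U ↔ k ≤ (H.neighborSet w).ncard)
    (hedge : ∃ a b : U, H.Adj a b) (hfail : Fail (H.induce U)) : Fail H := by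
  refine robust U hedge hfail ?_
  rintro V0 K I0 ⟨f⟩
  have hin : ∀ w ∈ U, ∃ v, f w = .inl v := by
    intro w hw
    rcases hfw : f w with v | ⟨θ, κ, z⟩
    · exact ⟨v, rfl⟩
    · exfalso
      have hz : ¬ k ≤ (H.neighborSet z.1).ncard := fun h => z.2 ((hU _).2 h)
      apply hz
      refine ((hU w).1 hw).trans ?_
      -- map a neighbour of `w` to a neighbour of `z`
      have hstep : ∀ x ∈ H.neighborSet w, ∃ y ∈ H.neighborSet z.1,
          f x = if hy : y ∈ U then .inl (θ ⟨y, hy⟩) else .inr (θ, κ, ⟨y, hy⟩) := by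
        intro x hx
        have h1 := f.toHom.map_adj hx
        change (rob H U V0 K I0).Adj (f w) (f x) at h1
        rw [hfw] at h1
        rcases hfx : f x with v | ⟨θ', κ', y⟩
        · rw [hfx] at h1
          obtain ⟨u, hu, hadj⟩ := h1
          refine ⟨u.1, hadj.symm, ?_⟩
          rw [dif_pos u.2, ← hu]
        · rw [hfx] at h1
          obtain ⟨rfl, rfl, hadj⟩ := h1
          refine ⟨y.1, hadj, ?_⟩
          rw [dif_neg y.2]
      choose! g hg hg' using hstep
      refine Set.ncard_le_ncard_of_injOn g (fun x hx => hg x hx) ?_ (Set.toFinite _)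
      intro x hx x' hx' h
      apply f.injective
      change f x = f x'
      rw [hg' x hx, hg' x' hx', h]
  choose g hg using fun u : U => hin u.1 u.2
  refine contained_of g ?_ ?_
  · intro a b hab
    apply Subtype.ext
    apply f.injective
    change f a.1 = f b.1
    rw [hg a, hg b, hab]
  · intro a b hab
    have h1 := f.toHom.map_adj (show H.Adj a.1 b.1 from hab)
    change (rob H U V0 K I0).Adj (f a.1) (f b.1) at h1
    rw [hg a, hg b] at h1
    exact h1

end Pool.Agent.H165R2.SM
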